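import Pool.Agent.Work.MP_03d2dd_co.Wilson
import Mathlib.Data.ZMod.Basic
import Mathlib.Tactic.Linarith
import Mathlib.Tactic.Positivity

/-! Assembling homogeneous latin squares of order `m t + u`. -/

namespace Pool.Agent.Work.MP_03d2dd_co

open Finset

section

variable {α β : Type} [Fintype α] [DecidableEq α] [Fintype β] [DecidableEq β]

omit [Fintype α] [DecidableEq α] [Fintype β] [DecidableEq β] in
theorem latin_map (e : α ≃ β) {L : α → α → α} (h : IsLatin L) :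
    IsLatin fun x y => e (L (e.symm x) (e.symm y)) :=
  ⟨fun r => e.bijective.comp ((h.1 (e.symm r)).comp e.symm.bijective),
    fun c => e.bijective.comp ((h.2 (e.symm c)).comp e.symm.bijective)⟩

theorem cnt_map (e : α ≃ β) (L : α → α → α) (r c : β) :
    cnt (fun x y => e (L (e.symm x) (e.symm y))) r c = cnt L (e.symm r) (e.symm c) := by
  unfold cnt
  apply Finset.card_bij (fun x _ => (e.symm x.1, e.symm x.2))
  · intro x hx
    simpa using hx
  · rintro ⟨a, b⟩ _ ⟨a', b'⟩ _ h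
    simpa using h
  · rintro ⟨a, b⟩ hx
    exact ⟨(e a, e b), by simpa using hx, by simp⟩

theorem Ex.toType {n m : ℕ} (H : Ex n m) (hβ : Fintype.card β = n) :
    ∃ L : β → β → β, IsLatin L ∧ ∀ r c, cnt L r c = m := by
  obtain ⟨α, _, _, L, h1, h2, h3⟩ := H
  let e : α ≃ β := Fintype.equivOfCardEq (h1.trans hβ.symm)
  exact ⟨_, latin_map e h2, fun r c => (cnt_map e L r c).trans (h3 _ _)⟩

end

/-- A latin square of order `m + g` with an isolated subsquare of order `g`. -/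
def Loc (m g n : ℕ) : Prop :=
  ∃ M : Fin m ⊕ Fin g → Fin m ⊕ Fin g → Fin m ⊕ Fin g,
    IsLatin M ∧ (∀ u v, cnt M u v = n) ∧ Hole M (·.isRight = true)

theorem Ex.loc_zero {m n : ℕ} (H : Ex m n) : Loc m 0 n := by
  obtain ⟨M, h1, h2⟩ := H.toType (β := Fin m ⊕ Fin 0) (by simp)
  have z : ∀ u : Fin m ⊕ Fin 0, ¬u.isRight = true := by
    rintro (u | u)
    · simp
    · exact u.elim0
  exact ⟨M, h1, h2, fun _ _ h => (z _ h).elim, fun _ _ h => (z _ h).elim,
    fun _ _ h => (z _ h).elim, fun _ _ _ _ h => (z _ h).elim⟩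

theorem two_cancel {n : ℕ} (hn : Nat.Coprime n 2) (x y : ZMod n) (h : x + x = y + y) : x = y := by
  have u2 : IsUnit (2 : ZMod n) := by
    exact_mod_cast (ZMod.isUnit_iff_coprime 2 n).2 hn.symm
  exact u2.mul_left_cancel (by linear_combination h)

theorem latin_add (n : ℕ) : IsLatin fun x y : ZMod n => x + y :=
  ⟨fun r => (Equiv.addLeft r).bijective, fun c => (Equiv.addRight c).bijective⟩

theorem cnt_add {n : ℕ} [NeZero n] (hn : Nat.Coprime n 2) (a b : ZMod n) :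
    cnt (fun x y : ZMod n => x + y) a b = 1 := by
  rw [cnt, card_eq_one]
  refine ⟨(a, b), ?_⟩
  ext ⟨x, y⟩
  simp only [mem_filter, mem_univ, true_and, mem_singleton, Prod.mk.injEq]
  constructor
  · rintro ⟨e1, e2⟩
    obtain rfl : x = a := two_cancel hn _ _ (by linear_combination -e1 - e2)
    exact ⟨rfl, (add_left_cancel e1).symm⟩
  · rintro ⟨rfl, rfl⟩
    exact ⟨rfl, rfl⟩

theorem ex_odd {n : ℕ} (hn : Nat.Coprime n 2) : Ex n 1 := by
  have : NeZero n := ⟨by rintro rfl; simp at hn⟩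
  exact ⟨ZMod n, inferInstance, inferInstance, _, ZMod.card n, latin_add n, cnt_add hn⟩

theorem cnt_prod {α β : Type} [Fintype α] [DecidableEq α] [Fintype β] [DecidableEq β]
    (L : α → α → α) (M : β → β → β) (r c : α × β) :
    cnt (fun x y : α × β => (L x.1 y.1, M x.2 y.2)) r c = cnt L r.1 c.1 * cnt M r.2 c.2 := by
  unfold cnt
  rw [← card_product]
  apply Finset.card_bij (fun x _ => ((x.1.1, x.2.1), (x.1.2, x.2.2)))
  · intro x hx
    simp only [mem_filter, mem_univ, true_and, Prod.mk.injEq, mem_product] at hx ⊢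
    exact ⟨⟨hx.1.1, hx.2.1⟩, hx.1.2, hx.2.2⟩
  · rintro ⟨⟨a, b⟩, c, d⟩ _ ⟨⟨a', b'⟩, c', d'⟩ _ h
    simp only [Prod.mk.injEq] at h ⊢
    exact ⟨⟨h.1.1, h.2.1⟩, h.1.2, h.2.2⟩
  · rintro ⟨⟨a, b⟩, c, d⟩ hx
    refine ⟨((a, c), (b, d)), ?_, rfl⟩
    simp only [mem_filter, mem_univ, true_and, Prod.mk.injEq, mem_product] at hx ⊢
    exact ⟨⟨hx.1.1, hx.2.1⟩, hx.1.2, hx.2.2⟩

theorem Ex.loc {g n m : ℕ} (H : Ex g n) (hm : 2 * g ∣ m) : Loc m g n := by
  obtain ⟨l, rfl⟩ := hm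
  obtain ⟨K, h1, h2⟩ := H.toType (β := Fin g) (by simp)
  have hn : Nat.Coprime (2 * l + 1) 2 := by simp
  have c1 : Fintype.card {p : Fin g × ZMod (2 * l + 1) // p.2 = 0} = g := by
    rw [Fintype.card_subtype, card_filter, Fintype.sum_prod_type]
    simp
  have c2 : Fintype.card {p : Fin g × ZMod (2 * l + 1) // ¬p.2 = 0} = 2 * g * l := by
    rw [Fintype.card_subtype_compl, c1, Fintype.card_prod, Fintype.card_fin, ZMod.card,
      Nat.sub_eq_iff_eq_add (Nat.le_mul_of_pos_right _ (by omega))]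
    ring
  let e : Fin g × ZMod (2 * l + 1) ≃ Fin (2 * g * l) ⊕ Fin g :=
    ((Equiv.sumCompl fun p : Fin g × ZMod (2 * l + 1) => p.2 = 0).symm.trans
      (Equiv.sumComm _ _)).trans
      (Equiv.sumCongr (Fintype.equivFinOfCardEq c2) (Fintype.equivFinOfCardEq c1))
  have he : ∀ p, (e p).isRight = true ↔ p.2 = 0 := by
    intro p
    by_cases hp : p.2 = 0
    · simp [e, Equiv.sumCompl_symm_apply_of_pos (p := fun p : Fin g × ZMod (2 * l + 1) => p.2 = 0)
        hp, hp]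
    · simp [e, Equiv.sumCompl_symm_apply_of_neg (p := fun p : Fin g × ZMod (2 * l + 1) => p.2 = 0)
        hp, hp]
  have he' : ∀ u, u.isRight = true ↔ (e.symm u).2 = 0 := fun u => by
    rw [← he, Equiv.apply_symm_apply]
  have hl : IsLatin fun x y : Fin g × ZMod (2 * l + 1) => (K x.1 y.1, x.2 + y.2) :=
    ⟨fun r => (h1.1 r.1).prodMap ((latin_add _).1 r.2),
      fun c => (h1.2 c.1).prodMap ((latin_add _).2 c.2)⟩
  refine ⟨_, latin_map e hl, fun u v => ?_, ?_, ?_, ?_, ?_⟩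
  · rw [cnt_map e (fun x y : Fin g × ZMod (2 * l + 1) => (K x.1 y.1, x.2 + y.2)),
      cnt_prod K (fun x y : ZMod (2 * l + 1) => x + y), h2, cnt_add hn, mul_one]
  · intro u v
    simp only [he, he' u, he' v]
    intro a b
    rw [a, b, add_zero]
  · intro u v
    simp only [he, he' u, he' v]
    intro a b
    rwa [a, zero_add] at b
  · intro u v
    simp only [he, he' u, he' v]
    intro a b
    rwa [a, add_zero] at b
  · intro u u' v v'
    simp only [he, he' u, he' v, he' u', EmbeddingLike.apply_eq_iff_eq, Prod.mk.injEq]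
    intro a b c d
    exact two_cancel hn _ _ (by linear_combination d - c.2 + a - b)

theorem wilson {t m n : ℕ} [NeZero t] (ht : Nat.Coprime t 30) (γ : ZMod t → ℕ)
    (hU : ∀ x y z, γ x ≠ 0 → γ y ≠ 0 → γ z ≠ 0 → y + 2 * z = 3 * x → x = y ∧ y = z)
    (hL : ∀ x, Loc m (γ x) n) (hu : Ex (∑ x, γ x) n) : Ex (t * m + ∑ x, γ x) n := by
  choose M h1 h2 h3 using hL
  obtain ⟨N, k1, k2⟩ := hu.toType (β := Σ x, Fin (γ x)) (by simp)
  have u60 : IsUnit (60 : ZMod t) := by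
    have := (ZMod.isUnit_iff_coprime 60 t).2
      (Nat.Coprime.coprime_dvd_left (by norm_num : 60 ∣ 30 ^ 2) (Nat.Coprime.pow_left 2 ht.symm))
    exact_mod_cast this
  have k : ∀ x y : ZMod t, 60 * x = 60 * y → x = y := fun x y h => u60.mul_left_cancel h
  obtain ⟨j, hj⟩ := u60.exists_right_inv
  have hι : 3 * (20 * j) = 1 := by linear_combination hj
  have H : Hole (glob (20 * j) M N) (·.isRight = true) :=
    glob_hole k hι (fun x y z ⟨a⟩ ⟨b⟩ ⟨c⟩ => hU x y z a.pos.ne' b.pos.ne' c.pos.ne') h3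
  exact ⟨_, inferInstance, inferInstance, glob (20 * j) M N, by simp, glob_latin k hι H h1 k1,
    glob_cnt k hι H h3 h2 k2⟩

theorem parab {N i j k : ℕ} (hi : i < N) (hj : j < N) (hk : k < N)
    (h : (j + 3 * N * j ^ 2) + 2 * (k + 3 * N * k ^ 2) = 3 * (i + 3 * N * i ^ 2)) :
    i = j ∧ j = k := by
  have h1 : j + 2 * k = 3 * i := by
    have e1 : (j + 2 * k + 3 * N * (j ^ 2 + 2 * k ^ 2)) % (3 * N) =
        (3 * i + 3 * N * (3 * i ^ 2)) % (3 * N) := by
      congr 1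
      linarith
    rwa [Nat.add_mul_mod_self_left, Nat.add_mul_mod_self_left, Nat.mod_eq_of_lt (by omega),
      Nat.mod_eq_of_lt (by omega)] at e1
  have h2 : j ^ 2 + 2 * k ^ 2 = 3 * i ^ 2 :=
    Nat.eq_of_mul_eq_mul_left (show 0 < 3 * N by omega) (by linarith)
  have h3 : ((j : ℤ) - k) ^ 2 = 0 := by
    have a : (j : ℤ) + 2 * k = 3 * i := by exact_mod_cast h1
    have b : (j : ℤ) ^ 2 + 2 * k ^ 2 = 3 * i ^ 2 := by exact_mod_cast h2
    have : 2 * ((j : ℤ) - k) ^ 2 = 0 := by linear_combination 3 * b - ((j : ℤ) + 2 * k + 3 * i) * a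
    linarith
  have h4 : (j : ℤ) - k = 0 := pow_eq_zero_iff (two_ne_zero) |>.1 h3
  omega

theorem assemble {g1 g2 m u1 u2 t n : ℕ} (H1 : Ex g1 n) (H2 : Ex g2 n) (Hm : Ex m n)
    (Hu : Ex (u1 * g1 + u2 * g2) n) (d1 : 2 * g1 ∣ m) (d2 : 2 * g2 ∣ m) (ht : Nat.Coprime t 30)
    (hB : 12 * (u1 + u2 + 1) ^ 3 ≤ t) : Ex (t * m + (u1 * g1 + u2 * g2)) n := by
  have : NeZero t := ⟨by rintro rfl; simp at ht⟩
  set N := u1 + u2 + 1 with hN
  let φ : ℕ → ℕ := fun i => i + 3 * N * i ^ 2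
  have hφ : ∀ i, i < N → 3 * φ i < t := by
    intro i hi
    have h1 : i ^ 2 ≤ N ^ 2 := Nat.pow_le_pow_left hi.le 2
    have h2 : N ≤ N ^ 3 := Nat.le_self_pow (by norm_num) N
    have h3 : 3 * N * i ^ 2 ≤ 3 * N * N ^ 2 := Nat.mul_le_mul_left _ h1
    have h4 : 3 * N * N ^ 2 = 3 * N ^ 3 := by ring
    simp only [φ]
    omega
  have key : ∀ i j k, i < N → j < N → k < N →
      ((φ j : ℕ) : ZMod t) + 2 * (φ k : ℕ) = 3 * (φ i : ℕ) → i = j ∧ j = k := by
    intro i j k hi hj hk h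
    have h1 : ((φ j + 2 * φ k : ℕ) : ZMod t) = ((3 * φ i : ℕ) : ZMod t) := by
      push_cast
      exact h
    have a := hφ i hi
    have b := hφ j hj
    have c := hφ k hk
    rw [ZMod.natCast_eq_natCast_iff', Nat.mod_eq_of_lt (by omega), Nat.mod_eq_of_lt a] at h1
    exact parab hi hj hk h1
  let g : ℕ → ℕ := fun i => if i < u1 then g1 else g2
  let γ : ZMod t → ℕ := fun x => ∑ i ∈ range (u1 + u2), if ((φ i : ℕ) : ZMod t) = x then g i else 0
  have hs : ∑ x, γ x = u1 * g1 + u2 * g2 := by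
    simp only [γ]
    rw [sum_comm]
    simp only [sum_ite_eq, mem_univ, if_true]
    rw [sum_range_add, sum_congr rfl (g := fun _ => g1) fun i hi => if_pos (mem_range.1 hi),
      sum_congr rfl (g := fun _ => g2) fun i _ => if_neg (by omega)]
    simp
  have hγ : ∀ x, γ x = 0 ∨ ∃ i, i < N ∧ ((φ i : ℕ) : ZMod t) = x ∧ γ x = g i := by
    intro x
    by_cases h : ∃ i ∈ range (u1 + u2), ((φ i : ℕ) : ZMod t) = x
    · obtain ⟨i, hi, rfl⟩ := h
      have hi' : i < N := by have := mem_range.1 hi; omega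
      refine Or.inr ⟨i, hi', rfl, ?_⟩
      simp only [γ]
      rw [sum_eq_single_of_mem i hi, if_pos rfl]
      intro j hj hne
      have hj' : j < N := by have := mem_range.1 hj; omega
      exact if_neg fun e => hne (key j i i hj' hi' hi' (by rw [e]; ring)).1
    · exact Or.inl (sum_eq_zero fun i hi => if_neg fun e => h ⟨i, hi, e⟩)
  rw [← hs] at Hu ⊢
  refine wilson ht γ (fun x y z a b c e => ?_) (fun x => ?_) Hu
  · obtain ⟨i, hi, rfl, -⟩ := (hγ x).resolve_left a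
    obtain ⟨j, hj, rfl, -⟩ := (hγ y).resolve_left b
    obtain ⟨k, hk, rfl, -⟩ := (hγ z).resolve_left c
    obtain ⟨rfl, rfl⟩ := key i j k hi hj hk e
    exact ⟨rfl, rfl⟩
  · rcases hγ x with h | ⟨i, -, -, h⟩ <;> rw [h]
    · exact Hm.loc_zero
    · simp only [g]
      split_ifs
      · exact H1.loc d1
      · exact H2.loc d2

end Pool.Agent.Work.MP_03d2dd_co
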