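import Pool.Agent.Work.MP_03d2dd_co.Lift
import Mathlib.Tactic.NormNum.Prime
import Mathlib.Tactic.NormNum.GCD

/-! Three 4-homogeneous latin squares of pairwise almost coprime orders. -/

namespace Pool.Agent.Work.MP_03d2dd_co

open Finset

/-- Symmetrised weights. -/
def symw {R : Type} [CommRing R] (ω : R → R → R → ℕ) (d c c' : R) : ℕ :=
  ω d c c' + ω d c' c + (ω (-d) (c - d) (c' - d) + ω (-d) (c' - d) (c - d))

theorem cyc {n : ℕ} [NeZero n] (θ : ZMod n → ZMod n) (ω : ZMod n → ZMod n → ZMod n → ℕ)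
    (h1 : ∀ x y, θ x = θ y → x = y) (h2 : ∀ x y, θ x - x = θ y - y → x = y)
    (hω : ∀ d c c', ω d c c' ≤ 3) {h : ℕ}
    (hs : ∀ c, ∑ p ∈ univ.filter (fun p : ZMod n × ZMod n =>
      θ c = p.1 + θ (p.2 - p.1) ∧ θ p.2 = p.1 + θ (c - p.1) ∧ p.1 ≠ 0 ∧ p.2 ≠ c),
        symw ω p.1 c p.2 = h)
    {m q : ℕ} (hm : Nat.Coprime m 6) (hp : q.Prime) (hq : 2 * m + 3 < q) (h12 : 12 ≤ m) :
    Ex (n * (m * q ^ m) ^ (n ^ 4)) (h + 1) := by
  have := lift_gad (α := ZMod n) (K := fun i j => i + θ (j - i)) ⟨?_, ?_⟩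
    (fun r r' c c' => symw ω (r' - r) (c - r) (c' - r)) ?_ ?_ (D := m) hm hp hq ?_ (h := h) ?_
  · rwa [ZMod.card] at this
  · intro r
    refine Finite.injective_iff_bijective.1 fun c c' e => ?_
    exact sub_left_injective (h1 _ _ (add_left_cancel e))
  · intro c
    refine Finite.injective_iff_bijective.1 fun r r' e => ?_
    exact sub_right_injective (h2 (c - r) (c - r') (by linear_combination e))
  · intro r r' c c'
    simp only [symw, neg_sub, sub_sub_sub_cancel_right]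
    exact add_comm _ _
  · intro r r' c c'
    simp only [symw]
    omega
  · intro r r' c c'
    have a1 := hω (r' - r) (c - r) (c' - r)
    have a2 := hω (r' - r) (c' - r) (c - r)
    have a3 := hω (-(r' - r)) (c - r - (r' - r)) (c' - r - (r' - r))
    have a4 := hω (-(r' - r)) (c' - r - (r' - r)) (c - r - (r' - r))
    simp only [symw]
    omega
  · intro r c
    rw [← hs (c - r)]
    refine sum_bij (fun p _ => (p.1 - r, p.2 - r)) ?_ ?_ ?_ fun _ _ => rfl
    · rintro ⟨r', c'⟩ hp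
      simp only [mem_filter, mem_univ, true_and, sub_sub_sub_cancel_right] at hp ⊢
      exact ⟨by linear_combination hp.2.2.1, by linear_combination hp.2.2.2, sub_ne_zero.2 hp.1,
        fun e => hp.2.1 (sub_left_injective e)⟩
    · rintro ⟨a, b⟩ _ ⟨a', b'⟩ _ e
      simpa using e
    · rintro ⟨a, b⟩ hp
      refine ⟨(a + r, b + r), ?_, by simp⟩
      simp only [mem_filter, mem_univ, true_and] at hp ⊢
      have e1 : b + r - (a + r) = b - a := by ring
      have e2 : c - (a + r) = c - r - a := by ring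
      have e3 : b + r - r = b := by ring
      rw [e1, e2, e3]
      exact ⟨fun e => hp.2.2.1 (by linear_combination e), fun e => hp.2.2.2 (by linear_combination e),
        by linear_combination hp.1, by linear_combination hp.2.1⟩

/-- A permutation read off from base-32 digits. -/
def digitMap (n T : ℕ) (x : ZMod n) : ZMod n := ((T / 32 ^ x.val % 32 : ℕ) : ZMod n)

/-- Weights read off from a list. -/
def listw {n : ℕ} (l : List (ℕ × ℕ)) (d c c' : ZMod n) : ℕ :=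
  (l.map fun e => if e.1 = d.val * 1024 + c.val * 32 + c'.val then e.2 else 0).sum % 4

theorem listw_le {n : ℕ} (l : List (ℕ × ℕ)) (d c c' : ZMod n) : listw l d c c' ≤ 3 :=
  Nat.le_of_lt_succ (Nat.mod_lt _ (by norm_num))

theorem ex13 : Ex (13 * (13 * 31 ^ 13) ^ (13 ^ 4)) (4 + 1) :=
  cyc (digitMap 13 8228364706446120000)
    (listw [(2056, 1), (6149, 1), (6344, 2), (6377, 1), (2155, 3), (2188, 2), (5258, 1), (2247, 1),
      (3338, 1)])
    (by decide +kernel) (by decide +kernel) (listw_le _) (by decide +kernel)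
    (by norm_num) (by norm_num) (by norm_num) (by norm_num)

private theorem cyc_sum {n : ℕ} [NeZero n] {θ : ZMod n → ZMod n} (ψ : ZMod n → ZMod n)
    (h1 : ∀ x, ψ (θ x) = x ∧ θ (ψ x) = x) {ω : ZMod n → ZMod n → ZMod n → ℕ} {h : ℕ}
    (hs : ∀ c, ∑ a, (if θ (a + ψ (θ c - a)) = a + θ (c - a) ∧ a ≠ 0 ∧ a + ψ (θ c - a) ≠ c then
      symw ω a c (a + ψ (θ c - a)) else 0) = h) (c : ZMod n) :
    ∑ p ∈ univ.filter (fun p : ZMod n × ZMod n =>
      θ c = p.1 + θ (p.2 - p.1) ∧ θ p.2 = p.1 + θ (c - p.1) ∧ p.1 ≠ 0 ∧ p.2 ≠ c),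
        symw ω p.1 c p.2 = h := by
  have e : ∀ a b, θ c = a + θ (b - a) ↔ a + ψ (θ c - a) = b := fun a b =>
    ⟨fun k => by rw [k, add_sub_cancel_left, (h1 _).1, add_sub_cancel],
      fun k => by rw [← k, add_sub_cancel_left, (h1 _).2, add_sub_cancel]⟩
  rw [← hs c, sum_filter, Fintype.sum_prod_type]
  refine sum_congr rfl fun a _ => ?_
  simp only [e]
  rw [← Fintype.sum_ite_eq (a + ψ (θ c - a)) fun b => if θ b = a + θ (c - a) ∧ a ≠ 0 ∧ b ≠ c then
    symw ω a c b else 0]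
  exact sum_congr rfl fun b _ => ite_and _ _ _ _

theorem ex29 : Ex (29 * (17 * 41 ^ 17) ^ (29 ^ 4)) (4 + 1) :=
  cyc (digitMap 29 37203132787304743660995873469657371441405024)
    (listw [(1033, 1), (13313, 1), (11639, 1), (2132, 1), (11314, 2), (14841, 1), (2191, 3),
      (12408, 1), (3272, 3), (14940, 1), (12593, 1), (8405, 1), (10804, 2), (10870, 2), (11606, 2),
      (2587, 3), (3866, 3)])
    (by decide +kernel) (by decide +kernel) (listw_le _)
    (cyc_sum (digitMap 29 11580632563028396150692591461987183163921056) (by decide +kernel) (by decide +kernel))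
    (by norm_num) (by norm_num) (by norm_num) (by norm_num)

theorem ex_bases : ∃ B0 B1 B2 : ℕ, Ex (2 * B0) (4 + 1) ∧ Ex B1 (4 + 1) ∧ Ex B2 (4 + 1) ∧
    Nat.Coprime B0 22 ∧ Nat.Coprime B1 22 ∧ Nat.Coprime B2 210 ∧ Nat.Coprime B0 B1 ∧
    Nat.Coprime B2 B0 ∧ Nat.Coprime B2 B1 := by
  have c : ∀ {a b c x : ℕ} (i j : ℕ), Nat.Coprime a x → Nat.Coprime b x → Nat.Coprime c x →
      Nat.Coprime (a * (b * c ^ i) ^ j) x := fun i j h1 h2 h3 =>
    h1.mul_left ((h2.mul_left (h3.pow_left i)).pow_left j)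
  have e0 : Ex (2 * (1 * (5 * 19 ^ 1) ^ (2 ^ 4))) (1 * 4 + 1) := by
    rw [one_mul]
    exact Ex.scale (h := 1) ex_two (by norm_num) (by norm_num) (by norm_num) (by norm_num)
      (by norm_num)
  refine ⟨_, _, _, e0, ex13, ex29, c _ _ ?_ ?_ ?_, c _ _ ?_ ?_ ?_, c _ _ ?_ ?_ ?_,
    c _ _ (c _ _ ?_ ?_ ?_).symm (c _ _ ?_ ?_ ?_).symm (c _ _ ?_ ?_ ?_).symm,
    c _ _ (c _ _ ?_ ?_ ?_).symm (c _ _ ?_ ?_ ?_).symm (c _ _ ?_ ?_ ?_).symm,
    c _ _ (c _ _ ?_ ?_ ?_).symm (c _ _ ?_ ?_ ?_).symm (c _ _ ?_ ?_ ?_).symm⟩ <;> norm_num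

theorem ex_zero {p : ℕ} (hp : p.Prime) (h : 5 < p) : Ex (2 * p ^ 16) 1 := by
  have := Ex.scale (h := 1) (j := 0) (m := 1) (D := 1) ex_two (by norm_num) hp (by omega)
    (by norm_num) (by norm_num)
  simpa using this

end Pool.Agent.Work.MP_03d2dd_co
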