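import Mathlib.Data.Fintype.Prod
import Mathlib.Logic.Function.Basic

/-! Definitions for MP_03d2dd_co (homogeneous latin squares). -/

namespace Pool.Agent.Work.MP_03d2dd_co

variable {α : Type} [Fintype α] [DecidableEq α]

/-- Every symbol occurs exactly once in each row and exactly once in each column. -/
def IsLatin (L : α → α → α) : Prop :=
  (∀ r, Function.Bijective fun c => L r c) ∧ ∀ c, Function.Bijective fun r => L r c

/-- The number of intercalates through the cell `(r, c)`, each counted by its opposite cell. -/
def intercalates (L : α → α → α) (r c : α) : ℕ :=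
  (Finset.univ.filter fun x : α × α =>
    x.1 ≠ r ∧ x.2 ≠ c ∧ L r c = L x.1 x.2 ∧ L r x.2 = L x.1 c).card

/-- Every cell lies in exactly `h` intercalates. -/
def IsHomogeneous (L : α → α → α) (h : ℕ) : Prop := ∀ r c, intercalates L r c = h

end Pool.Agent.Work.MP_03d2dd_co
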