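import Mathlib.Data.ZMod.Basic
import Mathlib.Algebra.Field.ZMod
import Mathlib.Algebra.Ring.Prod
import Mathlib.Algebra.Ring.Pi
import Mathlib.Tactic.LinearCombination
import Mathlib.Tactic.Ring
import Mathlib.Tactic.Linarith

/-! Four latin squares on a group of odd order that together form exactly `v` intercalates
through each cell, and that form exactly one together with three copies of the group table. -/

namespace Pool.Agent.Work.MP_03d2dd_co

open Finset

section

variable {Φ : Type} [CommRing Φ]

/-- A latin square on `Φ` without intercalates which is orthogonal to the group table in the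
three ways needed below. -/
structure Face (f : Φ → Φ → Φ) : Prop where
  row : ∀ x y y', f x y = f x y' → y = y'
  col : ∀ y x x', f x y = f x' y → x = x'
  free : ∀ x x' y y', f x y = f x' y' → f x y' = f x' y → x = x'
  diag : ∀ d x x', f x (x + d) = f x' (x' + d) → x = x'
  rowp : ∀ x y y', f x y + y = f x y' + y' → y = y'
  colp : ∀ y x x', f x y + x = f x' y + x' → x = x'

theorem face_add (h2 : ∀ x y : Φ, x + x = y + y → x = y) : Face (fun x y : Φ => x + y) where
  row := fun x y y' h => add_left_cancel h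
  col := fun y x x' h => add_right_cancel h
  free := fun x x' y y' h h' => h2 _ _ (by linear_combination h + h')
  diag := fun d x x' h => h2 _ _ (by linear_combination h)
  rowp := fun x y y' h => h2 _ _ (by linear_combination h)
  colp := fun y x x' h => h2 _ _ (by linear_combination h)

variable [Fintype Φ] [DecidableEq Φ]

/-- The number of ways to complete the cell `(x, y)` of `a` to an intercalate using `b, c, d`. -/
def quad (a b c d : Φ → Φ → Φ) (x y : Φ) : ℕ :=
  (univ.filter fun p : Φ × Φ => a x y = d p.1 p.2 ∧ b x p.2 = c p.1 y).card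

omit [CommRing Φ] in
theorem quad_eq_one {a b c d : Φ → Φ → Φ} {x y : Φ} (g : Φ → Φ) (s : Φ)
    (hg : Function.Injective g) (u : Φ × Φ → Φ) (mk : Φ → Φ × Φ) (hu : ∀ z, u (mk z) = z)
    (h1 : ∀ p : Φ × Φ, (a x y = d p.1 p.2 ∧ b x p.2 = c p.1 y) ↔ (p = mk (u p) ∧ g (u p) = s)) :
    quad a b c d x y = 1 := by
  obtain ⟨z, hz⟩ := (Finite.injective_iff_surjective.mp hg) s
  rw [quad, card_eq_one]
  refine ⟨mk z, ?_⟩
  ext p
  simp only [mem_filter, mem_univ, true_and, mem_singleton, h1]
  constructor
  · rintro ⟨e1, e2⟩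
    rw [e1, hg (e2.trans hz.symm)]
  · rintro rfl
    rw [hu]
    exact ⟨rfl, hz⟩

theorem Face.quad_same {f : Φ → Φ → Φ} (hf : Face f) (x y : Φ) : quad f f f f x y = 1 := by
  rw [quad, card_eq_one]
  refine ⟨(x, y), ?_⟩
  ext ⟨x', y'⟩
  simp only [mem_filter, mem_univ, true_and, mem_singleton, Prod.mk.injEq]
  constructor
  · rintro ⟨e1, e2⟩
    obtain rfl := hf.free _ _ _ _ e1 e2
    exact ⟨rfl, (hf.row _ _ _ e1).symm⟩
  · rintro ⟨rfl, rfl⟩
    exact ⟨rfl, rfl⟩

theorem quad_one₁ (h2 : ∀ x y : Φ, x + x = y + y → x = y) (f : Φ → Φ → Φ) (x y : Φ) :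
    quad f (· + ·) (· + ·) (· + ·) x y = 1 := by
  refine quad_eq_one (fun z => z + (z + (y - x))) (f x y)
    (fun z z' h => (face_add h2).diag (y - x) z z' h) Prod.fst (fun z => (z, z + (y - x)))
    (fun _ => rfl) ?_
  rintro ⟨x', y'⟩
  simp only [Prod.mk.injEq, true_and]
  have e : x + y' = x' + y ↔ y' = x' + (y - x) := by
    constructor <;> intro h <;> linear_combination h
  rw [e]
  constructor
  · rintro ⟨e1, rfl⟩
    exact ⟨rfl, e1.symm⟩
  · rintro ⟨rfl, e1⟩
    exact ⟨e1.symm, rfl⟩

theorem Face.quad_one₄ {f : Φ → Φ → Φ} (hf : Face f) (x y : Φ) :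
    quad (· + ·) (· + ·) (· + ·) f x y = 1 := by
  refine quad_eq_one (fun z => f z (z + (y - x))) (x + y)
    (fun z z' h => hf.diag (y - x) z z' h) Prod.fst (fun z => (z, z + (y - x)))
    (fun _ => rfl) ?_
  rintro ⟨x', y'⟩
  simp only [Prod.mk.injEq, true_and]
  have e : x + y' = x' + y ↔ y' = x' + (y - x) := by
    constructor <;> intro h <;> linear_combination h
  rw [e]
  constructor
  · rintro ⟨e1, rfl⟩
    exact ⟨rfl, e1.symm⟩
  · rintro ⟨rfl, e1⟩
    exact ⟨e1.symm, rfl⟩

theorem Face.quad_one₂ {f : Φ → Φ → Φ} (hf : Face f) (x y : Φ) :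
    quad (· + ·) f (· + ·) (· + ·) x y = 1 := by
  refine quad_eq_one (fun z => f x z + z) (x + y + y)
    (fun z z' h => hf.rowp x z z' h) Prod.snd (fun z => (x + y - z, z))
    (fun _ => rfl) ?_
  rintro ⟨x', y'⟩
  simp only [Prod.mk.injEq, and_true]
  have e : x + y = x' + y' ↔ x' = x + y - y' := by
    rw [eq_sub_iff_add_eq, eq_comm]
  rw [e]
  constructor
  · rintro ⟨rfl, e1⟩
    exact ⟨rfl, by linear_combination e1⟩
  · rintro ⟨rfl, e1⟩
    exact ⟨rfl, by linear_combination e1⟩

theorem Face.quad_one₃ {f : Φ → Φ → Φ} (hf : Face f) (x y : Φ) :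
    quad (· + ·) (· + ·) f (· + ·) x y = 1 := by
  refine quad_eq_one (fun z => f z y + z) (x + x + y)
    (fun z z' h => hf.colp y z z' h) Prod.fst (fun z => (z, x + y - z))
    (fun _ => rfl) ?_
  rintro ⟨x', y'⟩
  simp only [Prod.mk.injEq, true_and]
  have e : x + y = x' + y' ↔ y' = x + y - x' := by
    rw [eq_sub_iff_add_eq, eq_comm, add_comm x']
  rw [e]
  constructor
  · rintro ⟨rfl, e1⟩
    exact ⟨rfl, by linear_combination -e1⟩
  · rintro ⟨rfl, e1⟩
    exact ⟨rfl, by linear_combination -e1⟩

/-- Four faces forming exactly `v` intercalates through each of their cells. -/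
def IsGadget (f : Bool → Bool → Φ → Φ → Φ) (v : ℕ) : Prop :=
  (∀ i j, Face (f i j)) ∧ ∀ i j x y, quad (f i j) (f i (!j)) (f (!i) j) (f (!i) (!j)) x y = v

end

theorem face_tri {R F ι : Type} [CommRing R] [Field F] (s : R) (h2 : IsUnit (2 : R))
    (hs : IsUnit s) (hs1 : IsUnit (s + 1)) (A B : ι → R → F) (E : ι → F) (g2 : (2 : F) ≠ 0)
    (hA : ∀ k a, A k a ≠ 0) (hB : ∀ k a, B k a ≠ 0) (hAB : ∀ k a, A k a + B k a ≠ 0)
    (hA1 : ∀ k a, A k a + 1 ≠ 0) (hB1 : ∀ k a, B k a + 1 ≠ 0) :
    Face (fun x y : R × (ι → F) =>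
      (x.1 + s * y.1, fun k => A k x.1 * x.2 k + B k x.1 * y.2 k + E k)) where
  row := by
    rintro ⟨a, x⟩ ⟨b, y⟩ ⟨b', y'⟩ h
    simp only [Prod.mk.injEq, funext_iff] at h ⊢
    exact ⟨hs.mul_left_cancel (by linear_combination h.1),
      fun k => mul_left_cancel₀ (hB k a) (by linear_combination h.2 k)⟩
  col := by
    rintro ⟨b, y⟩ ⟨a, x⟩ ⟨a', x'⟩ h
    simp only [Prod.mk.injEq, funext_iff] at h ⊢
    obtain rfl : a = a' := by linear_combination h.1
    exact ⟨rfl, fun k => mul_left_cancel₀ (hA k a) (by linear_combination h.2 k)⟩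
  free := by
    rintro ⟨a, x⟩ ⟨a', x'⟩ ⟨b, y⟩ ⟨b', y'⟩ h h'
    simp only [Prod.mk.injEq, funext_iff] at h h' ⊢
    obtain rfl : a = a' := h2.mul_left_cancel (by linear_combination h.1 + h'.1)
    exact ⟨rfl, fun k => mul_left_cancel₀ (mul_ne_zero g2 (hA k a))
      (by linear_combination h.2 k + h'.2 k)⟩
  diag := by
    rintro ⟨b, y⟩ ⟨a, x⟩ ⟨a', x'⟩ h
    simp only [Prod.mk.injEq, funext_iff, Prod.mk_add_mk, Pi.add_apply] at h ⊢
    obtain rfl : a = a' := hs1.mul_left_cancel (by linear_combination h.1)
    exact ⟨rfl, fun k => mul_left_cancel₀ (hAB k a) (by linear_combination h.2 k)⟩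
  rowp := by
    rintro ⟨a, x⟩ ⟨b, y⟩ ⟨b', y'⟩ h
    simp only [Prod.mk.injEq, funext_iff, Prod.mk_add_mk, Pi.add_apply] at h ⊢
    exact ⟨hs1.mul_left_cancel (by linear_combination h.1),
      fun k => mul_left_cancel₀ (hB1 k a) (by linear_combination h.2 k)⟩
  colp := by
    rintro ⟨b, y⟩ ⟨a, x⟩ ⟨a', x'⟩ h
    simp only [Prod.mk.injEq, funext_iff, Prod.mk_add_mk, Pi.add_apply] at h ⊢
    obtain rfl : a = a' := h2.mul_left_cancel (by linear_combination h.1)
    exact ⟨rfl, fun k => mul_left_cancel₀ (hA1 k a) (by linear_combination h.2 k)⟩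

theorem solve_two {F : Type} [Field F] {a b c d : F} (h : a * d - b * c ≠ 0) (u v : F) :
    ∃ p : F × F, ∀ x y, (a * x + b * y = u ∧ c * x + d * y = v) ↔ (x = p.1 ∧ y = p.2) := by
  refine ⟨((d * u - b * v) / (a * d - b * c), (a * v - c * u) / (a * d - b * c)), fun x y => ?_⟩
  simp only [eq_div_iff h]
  constructor
  · rintro ⟨rfl, rfl⟩
    constructor <;> ring
  · rintro ⟨h1, h2⟩
    exact ⟨mul_left_cancel₀ h (by linear_combination a * h1 + b * h2),
      mul_left_cancel₀ h (by linear_combination c * h1 + d * h2)⟩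

section

variable (m D q e : ℕ)

/-- The multiplier attached to a row. -/
def mult (i : Bool) (k : Fin D) (a : ZMod m) : ZMod q :=
  (((if i then a else a + ((k : ℕ) : ZMod m)).val + 2 : ℕ) : ZMod q)

/-- The sign pattern. -/
def sgn (i j : Bool) : ℤ := if i = j then 2 else -2

/-- The four faces. -/
def gad (i j : Bool) (x y : ZMod m × (Fin D → ZMod q)) : ZMod m × (Fin D → ZMod q) :=
  (x.1 + (sgn i j : ZMod m) * y.1, fun k =>
    (if (k : ℕ) < e then mult m D q i k x.1 else 1) * x.2 k +
    (if (k : ℕ) < e then mult m D q i k x.1 * (sgn i j : ZMod q) else 1) * y.2 k +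
    (if (k : ℕ) < e ∧ i = false ∧ j = false then 1 else 0))

variable {m D q e}

theorem cast_ne_zero_of_lt {a : ℕ} (h0 : 0 < a) (h1 : a < q) : (a : ZMod q) ≠ 0 := by
  rw [Ne, ZMod.natCast_eq_zero_iff]
  exact fun h => absurd (Nat.le_of_dvd h0 h) (by omega)

theorem mult_spec [NeZero m] (i : Bool) (k : Fin D) (a : ZMod m) :
    ∃ g : ℕ, 2 ≤ g ∧ g ≤ m + 1 ∧ mult m D q i k a = g :=
  ⟨_, by omega, by have := ZMod.val_lt (if i then a else a + ((k : ℕ) : ZMod m)); omega, rfl⟩

theorem mult_eq_iff [NeZero m] (hq : m + 1 < q) (i : Bool) (k : Fin D) (a b : ZMod m) :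
    mult m D q i k a = mult m D q (!i) k b ↔ (if i then a - b else b - a) = ((k : ℕ) : ZMod m) := by
  have key : ∀ u v : ZMod m, ((u.val + 2 : ℕ) : ZMod q) = ((v.val + 2 : ℕ) : ZMod q) ↔ u = v := by
    intro u v
    refine ⟨fun h => ?_, fun h => by rw [h]⟩
    have hu := ZMod.val_lt u
    have hv := ZMod.val_lt v
    rw [ZMod.natCast_eq_natCast_iff', Nat.mod_eq_of_lt (by omega), Nat.mod_eq_of_lt (by omega)] at h
    exact ZMod.val_injective m (by omega)
  unfold mult
  rw [key]
  cases i
  · simp only [Bool.false_eq_true, if_false, Bool.not_false, if_true]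
    constructor <;> intro h <;> linear_combination -h
  · simp only [Bool.false_eq_true, if_false, Bool.not_true, if_true]
    constructor <;> intro h <;> linear_combination h

theorem card_allowed [NeZero m] (he : e ≤ m) (hD : e ≤ D) :
    (univ.filter fun z : ZMod m => ∀ k : Fin D, (k : ℕ) < e → z ≠ ((k : ℕ) : ZMod m)).card
      = m - e := by
  have h1 : (univ.filter fun z : ZMod m => ∀ k : Fin D, (k : ℕ) < e → z ≠ ((k : ℕ) : ZMod m))
      = univ \ (range e).image (fun k : ℕ => (k : ZMod m)) := by
    ext z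
    simp only [mem_filter, mem_univ, true_and, mem_sdiff, mem_image, mem_range, not_exists, not_and]
    constructor
    · intro h k hk hz
      exact h ⟨k, by omega⟩ hk hz.symm
    · intro h k hk hz
      exact h k hk hz.symm
  rw [h1, card_sdiff_of_subset (subset_univ _), card_univ, ZMod.card, card_image_of_injOn, card_range]
  intro a ha b hb hab
  simp only [coe_range, Set.mem_Iio] at ha hb
  have := (ZMod.natCast_eq_natCast_iff' a b m).1 hab
  rwa [Nat.mod_eq_of_lt (by omega), Nat.mod_eq_of_lt (by omega)] at this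

theorem gad_isGadget [NeZero m] [Fact q.Prime] (hm : Nat.Coprime m 6) (hq : 2 * m + 3 < q)
    (he : e ≤ m) (hD : e ≤ D) : IsGadget (gad m D q e) (m - e) := by
  have u2 : IsUnit (2 : ZMod m) := by
    have := (ZMod.isUnit_iff_coprime 2 m).2
      (Nat.Coprime.symm (Nat.Coprime.coprime_dvd_right (by norm_num) hm))
    exact_mod_cast this
  have u3 : IsUnit (3 : ZMod m) := by
    have := (ZMod.isUnit_iff_coprime 3 m).2
      (Nat.Coprime.symm (Nat.Coprime.coprime_dvd_right (by norm_num) hm))
    exact_mod_cast this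
  have hm0 : 0 < m := Nat.pos_of_ne_zero (NeZero.ne m)
  have g2 : (2 : ZMod q) ≠ 0 := by
    exact_mod_cast cast_ne_zero_of_lt (q := q) (a := 2) (by omega) (by omega)
  have g3 : (3 : ZMod q) ≠ 0 := by
    exact_mod_cast cast_ne_zero_of_lt (q := q) (a := 3) (by omega) (by omega)
  have hsq : ∀ i j, (sgn i j : ZMod q) = 2 ∨ (sgn i j : ZMod q) = -2 := by
    intro i j
    unfold sgn
    split_ifs <;> simp
  have hsm : ∀ i j, (sgn i j : ZMod m) = 2 ∨ (sgn i j : ZMod m) = -2 := by
    intro i j
    unfold sgn
    split_ifs <;> simp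
  have hG : ∀ i k a, mult m D q i k a ≠ 0 := by
    intro i k a
    obtain ⟨g, h1, h2, h3⟩ := mult_spec (q := q) i k a
    rw [h3]
    exact cast_ne_zero_of_lt (by omega) (by omega)
  have hs0 : ∀ i j, (sgn i j : ZMod q) ≠ 0 := by
    intro i j
    rcases hsq i j with h | h <;> rw [h]
    · exact g2
    · exact neg_ne_zero.2 g2
  have us : ∀ i j, IsUnit (sgn i j : ZMod m) := by
    intro i j
    rcases hsm i j with h | h <;> rw [h]
    · exact u2
    · exact u2.neg
  refine ⟨fun i j => ?_, fun i j x y => ?_⟩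
  · refine face_tri _ u2 (us i j) ?_
      (fun (k : Fin D) a => if (k : ℕ) < e then mult m D q i k a else 1)
      (fun (k : Fin D) a => if (k : ℕ) < e then mult m D q i k a * (sgn i j : ZMod q) else 1) _ g2
      ?_ ?_ ?_ ?_ ?_
    · rcases hsm i j with h | h <;> rw [h]
      · convert u3 using 1
        norm_num
      · convert (isUnit_one (M := ZMod m)).neg using 1
        norm_num
    · intro k a
      split_ifs
      · exact hG i k a
      · exact one_ne_zero
    · intro k a
      split_ifs
      · exact mul_ne_zero (hG i k a) (hs0 i j)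
      · exact one_ne_zero
    · intro k a
      split_ifs
      · rcases hsq i j with h | h <;> rw [h]
        · convert mul_ne_zero (hG i k a) g3 using 1
          ring
        · convert neg_ne_zero.2 (hG i k a) using 1
          ring
      · convert g2 using 1
        norm_num
    · intro k a
      split_ifs
      · obtain ⟨g, h1, h2, h3⟩ := mult_spec (q := q) i k a
        rw [h3]
        exact_mod_cast cast_ne_zero_of_lt (q := q) (a := g + 1) (by omega) (by omega)
      · convert g2 using 1
        norm_num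
    · intro k a
      split_ifs
      · obtain ⟨g, h1, h2, h3⟩ := mult_spec (q := q) i k a
        rw [h3]
        rcases hsq i j with h | h <;> rw [h]
        · exact_mod_cast cast_ne_zero_of_lt (q := q) (a := g * 2 + 1) (by omega) (by omega)
        · obtain ⟨g', rfl⟩ : ∃ g', g = g' + 1 := ⟨g - 1, by omega⟩
          have := cast_ne_zero_of_lt (q := q) (a := g' * 2 + 1) (by omega) (by omega)
          push_cast at this ⊢
          convert neg_ne_zero.2 this using 1
          ring
      · convert g2 using 1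
        norm_num
  · have n1 : sgn i (!j) = -sgn i j := by cases i <;> cases j <;> rfl
    have n2 : sgn (!i) j = -sgn i j := by cases i <;> cases j <;> rfl
    have n3 : sgn (!i) (!j) = sgn i j := by cases i <;> cases j <;> rfl
    obtain ⟨a, x⟩ := x
    obtain ⟨b, y⟩ := y
    obtain ⟨t, ht⟩ := (us i j).exists_right_inv
    -- the equations in one coordinate
    let P : ZMod m → Fin D → ZMod q → ZMod q → Prop := fun a' k x' y' =>
      (gad m D q e i j (a, x) (b, y)).2 k =
        (gad m D q e (!i) (!j) (a', fun _ => x') (b, fun _ => y')).2 k ∧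
      (gad m D q e i (!j) (a, x) (b, fun _ => y')).2 k =
        (gad m D q e (!i) j (a', fun _ => x') (b, y)).2 k
    have hP0 : ∀ a' k x' y', P a' k x' y' → (k : ℕ) < e →
        (if i then a - a' else a' - a) ≠ ((k : ℕ) : ZMod m) := by
      intro a' k x' y' h hk hne
      rw [← mult_eq_iff (q := q) (by omega)] at hne
      simp only [P, gad, hk, if_true, true_and, n1, n2, n3, ← hne, Int.cast_neg] at h
      have h3 : (if i = false ∧ j = false then (1 : ZMod q) else 0) -
          (if i = false ∧ (!j) = false then 1 else 0) -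
          (if (!i) = false ∧ (!j) = false then 1 else 0) +
          (if (!i) = false ∧ j = false then 1 else 0) = 0 := by
        linear_combination h.1 - h.2
      cases i <;> cases j <;> simp at h3
    have hP1 : ∀ a' (k : Fin D), ((k : ℕ) < e → (if i then a - a' else a' - a) ≠ ((k : ℕ) : ZMod m)) →
        ∃ p : ZMod q × ZMod q, ∀ x' y', P a' k x' y' ↔ (x' = p.1 ∧ y' = p.2) := by
      intro a' k h
      by_cases hk : (k : ℕ) < e
      · have hne := h hk
        rw [Ne, ← mult_eq_iff (q := q) (by omega)] at hne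
        have hdet : mult m D q (!i) k a' * (mult m D q i k a * (sgn i j : ZMod q)) -
            mult m D q (!i) k a' * (sgn i j : ZMod q) * mult m D q (!i) k a' ≠ 0 := by
          convert mul_ne_zero (mul_ne_zero (hG (!i) k a') (hs0 i j)) (sub_ne_zero.2 hne) using 1
          ring
        obtain ⟨p, hp⟩ := solve_two hdet
          ((gad m D q e i j (a, x) (b, y)).2 k - if (!i) = false ∧ (!j) = false then 1 else 0)
          (mult m D q i k a * x k + (if i = false ∧ (!j) = false then 1 else 0) +
            mult m D q (!i) k a' * (sgn i j : ZMod q) * y k -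
            if (!i) = false ∧ j = false then 1 else 0)
        refine ⟨p, fun x' y' => ?_⟩
        rw [← hp]
        simp only [P, gad, hk, if_true, true_and, n1, n2, n3, Int.cast_neg]
        constructor <;> rintro ⟨h1, h2⟩ <;> constructor
        · linear_combination -h1
        · linear_combination -h2
        · linear_combination -h1
        · linear_combination -h2
      · have hdet : (1 : ZMod q) * (-1) - 1 * 1 ≠ 0 := by
          convert neg_ne_zero.2 g2 using 1
          ring
        obtain ⟨p, hp⟩ := solve_two hdet (x k + y k) (x k - y k)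
        refine ⟨p, fun x' y' => ?_⟩
        rw [← hp]
        simp only [P, gad, hk, if_false, false_and]
        constructor <;> rintro ⟨h1, h2⟩ <;> constructor
        · linear_combination -h1
        · linear_combination -h2
        · linear_combination -h1
        · linear_combination -h2
    have hmem : ∀ a' x' b' y', (gad m D q e i j (a, x) (b, y) = gad m D q e (!i) (!j) (a', x') (b', y') ∧
        gad m D q e i (!j) (a, x) (b', y') = gad m D q e (!i) j (a', x') (b, y)) ↔
        (b' = b + t * (a - a') ∧ ∀ k, P a' k (x' k) (y' k)) := by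
      intro a' x' b' y'
      simp only [P, gad, Prod.mk.injEq, funext_iff, n1, n2, n3, Int.cast_neg, forall_and]
      constructor
      · rintro ⟨⟨h1, h2⟩, -, h4⟩
        exact ⟨by linear_combination (-t) * h1 - (b' - b) * ht, h2, h4⟩
      · rintro ⟨h1, h2, h3⟩
        exact ⟨⟨by linear_combination (-(sgn i j : ZMod m)) * h1 - (a - a') * ht, h2⟩,
          by linear_combination (-(sgn i j : ZMod m)) * h1 - (a - a') * ht, h3⟩
    rw [← card_allowed (m := m) he hD, quad]
    refine card_bij (fun p _ => if i then a - p.1.1 else p.1.1 - a) ?_ ?_ ?_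
    · rintro ⟨⟨a', x'⟩, b', y'⟩ hp
      simp only [mem_filter, mem_univ, true_and, hmem] at hp ⊢
      exact fun k hk => hP0 _ _ _ _ (hp.2 k) hk
    · rintro ⟨⟨a', x'⟩, b', y'⟩ hp ⟨⟨a'', x''⟩, b'', y''⟩ hp' h
      simp only [mem_filter, mem_univ, true_and, hmem] at hp hp' h
      obtain rfl : a' = a'' := by
        cases i
        · simpa using h
        · simpa using h
      have key : ∀ k, x' k = x'' k ∧ y' k = y'' k := by
        intro k
        obtain ⟨p, hp0⟩ := hP1 a' k (hP0 _ _ _ _ (hp.2 k))
        have e1 := (hp0 _ _).1 (hp.2 k)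
        have e2 := (hp0 _ _).1 (hp'.2 k)
        exact ⟨e1.1.trans e2.1.symm, e1.2.trans e2.2.symm⟩
      simp only [Prod.mk.injEq, true_and, funext_iff]
      exact ⟨fun k => (key k).1, hp.1.trans hp'.1.symm, fun k => (key k).2⟩
    · intro z hz
      simp only [mem_filter, mem_univ, true_and] at hz
      have ha : (if i then a - (if i then a - z else a + z) else (if i then a - z else a + z) - a)
          = z := by cases i <;> simp
      choose p hp using fun k : Fin D => hP1 (if i then a - z else a + z) k (by rw [ha]; exact hz k)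
      refine ⟨((if i then a - z else a + z, fun k => (p k).1),
        (b + t * (a - if i then a - z else a + z), fun k => (p k).2)), ?_, ha⟩
      simp only [mem_filter, mem_univ, true_and, hmem]
      exact fun k => (hp k _ _).2 ⟨rfl, rfl⟩

end

end Pool.Agent.Work.MP_03d2dd_co
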