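import Mathlib.GroupTheory.PGroup
import Mathlib.GroupTheory.Perm.Basic
import Mathlib.Tactic.Group
import Mathlib.Tactic.Linarith

/-! Sharply transitive families of permutations in which most quotients are locally involutions. -/

namespace Pool.Agent.Work.MP_03d2dd_co

open Finset Equiv

variable {α : Type} [Fintype α] [DecidableEq α]

/-- Rows that do not form an intercalate with the cell `(r, c)`. -/
def bad (π : α → Perm α) (r c : α) : Finset α :=
  univ.filter fun s => ((π r)⁻¹ * π s) (((π r)⁻¹ * π s) c) ≠ c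

/-- Sharp transitivity. -/
def Sharp (π : α → Perm α) : Prop := ∀ p, Function.Bijective fun r => π r p

omit [Fintype α] [DecidableEq α] in
theorem Sharp.mul {π : α → Perm α} (h : Sharp π) (x : Perm α) : Sharp fun r => x * π r :=
  fun p => x.bijective.comp (h p)

omit [Fintype α] [DecidableEq α] in
theorem local_inv (a t : Perm α) (p : α) (h1 : t (t p) = p)
    (h2 : (a⁻¹ * t) ((a⁻¹ * t) p) = p) (h3 : t (t (a p)) = a p)
    (h4 : (a⁻¹ * t) ((a⁻¹ * t) (a⁻¹ p)) = a⁻¹ p) : a (a p) = p ↔ a (a (t p)) = t p := by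
  simp only [Perm.mul_apply] at h2 h4
  have e1 : t (a⁻¹ (t p)) = a p := by
    have := congrArg a h2
    simpa using this
  have e2 : a⁻¹ (t p) = t (a p) := t.injective (by rw [e1, h3])
  have e3 : t (a⁻¹ (t (a⁻¹ p))) = p := a⁻¹.injective h4
  have e4 : a⁻¹ (t (a⁻¹ p)) = t p := t.injective (by rw [e3, h1])
  have e5 : t (a⁻¹ p) = a (t p) := by
    have := congrArg a e4
    simpa using this
  constructor
  · intro h
    have : a⁻¹ p = a p := by
      have := congrArg (⇑a⁻¹) h
      simpa using this.symm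
    rw [← e5, this, ← e2]
    simp
  · intro h
    have h5 : a (t p) = a⁻¹ (t p) := by
      have := congrArg (⇑a⁻¹) h
      simpa using this
    have h6 : a⁻¹ p = a p := t.injective (by rw [e5, h5, e2])
    rw [← h6]
    simp

omit [DecidableEq α] in
theorem card_filter_sharp {π : α → Perm α} (hS : Sharp π) (p : α) (Q : α → Prop)
    [DecidablePred Q] : (univ.filter fun s => Q (π s p)).card = (univ.filter Q).card := by
  apply Finset.card_bij (fun s _ => π s p)
  · intro s hs
    simpa using hs
  · intro s _ s' _ h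
    exact (hS p).1 h
  · intro q hq
    obtain ⟨s, hs⟩ := (hS p).2 q
    simp only at hs
    exact ⟨s, by simpa [hs] using hq, hs⟩

theorem dichotomy {π : α → Perm α} (hS : Sharp π) {b : ℕ} (hb : ∀ r c, (bad π r c).card ≤ b)
    (hn : 8 * b ≤ Fintype.card α) (r r' p q : α)
    (hp : ((π r)⁻¹ * π r') (((π r)⁻¹ * π r') p) = p) :
    ((π r)⁻¹ * π r') (((π r)⁻¹ * π r') q) = q := by
  by_contra hq
  set a := (π r)⁻¹ * π r' with ha
  let X : α → Finset α := fun x => bad π r x ∪ bad π r' x ∪ bad π r (a x) ∪ bad π r' (a⁻¹ x)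
  have hX : ∀ x, (X x).card ≤ 4 * b := by
    intro x
    have h1 := card_union_le (bad π r x ∪ bad π r' x ∪ bad π r (a x)) (bad π r' (a⁻¹ x))
    have h2 := card_union_le (bad π r x ∪ bad π r' x) (bad π r (a x))
    have h3 := card_union_le (bad π r x) (bad π r' x)
    have := hb r x
    have := hb r' x
    have := hb r (a x)
    have := hb r' (a⁻¹ x)
    simp only [X]
    omega
  have key : ∀ x s, s ∉ X x →
      (a (a x) = x ↔ a (a (((π r)⁻¹ * π s) x)) = ((π r)⁻¹ * π s) x) := by
    intro x s hs
    simp only [X, bad, mem_union, mem_filter, mem_univ, true_and, not_or, not_not] at hs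
    have e : (π r')⁻¹ * π s = a⁻¹ * ((π r)⁻¹ * π s) := by
      rw [ha]
      group
    rw [e] at hs
    exact local_inv a _ x hs.1.1.1 hs.1.1.2 hs.1.2 hs.2
  have h1 : (univ.filter fun x => ¬ a (a x) = x).card ≤ 4 * b := by
    rw [← card_filter_sharp (hS.mul (π r)⁻¹) p]
    refine le_trans (card_le_card ?_) (hX p)
    intro s hs
    by_contra h
    exact (mem_filter.mp hs).2 ((key p s h).mp hp)
  have h2 : (univ.filter fun x => a (a x) = x).card < 4 * b := by
    rw [← card_filter_sharp (hS.mul (π r)⁻¹) q]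
    have hr' : r' ∈ X q := by
      simp only [X, bad, mem_union, mem_filter, mem_univ, true_and]
      exact Or.inl (Or.inl (Or.inl hq))
    refine lt_of_le_of_lt (card_le_card (t := (X q).erase r') ?_)
      (lt_of_lt_of_le (card_erase_lt_of_mem hr') (hX q))
    intro s hs
    have hs' := (mem_filter.mp hs).2
    refine mem_erase.mpr ⟨?_, ?_⟩
    · rintro rfl
      exact hq (a.injective hs')
    · by_contra h
      exact hq ((key q s h).mpr hs')
  have := card_filter_add_card_filter_not (s := (univ : Finset α)) (fun x => a (a x) = x)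
  rw [card_univ] at this
  omega

theorem half_lemma (g x : Perm α) (hx : g * x = x⁻¹ * g) (hf : ∀ p, x (x p) ≠ p) :
    2 * (univ.filter fun p => g p = p).card ≤ Fintype.card α ∧
      (Fintype.card α ≤ 2 * (univ.filter fun p => g p = p).card →
        ∀ q, g q ≠ q → g q = x⁻¹ (x⁻¹ q)) := by
  have h1 : ∀ p, g p = p → g (x p) = x⁻¹ p := by
    intro p hp
    have := congrArg (fun y : Perm α => y p) hx
    simpa [hp] using this
  have hsub : (univ.filter fun p => g p = p).image x ⊆ univ.filter fun p => ¬ g p = p := by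
    intro q hq
    obtain ⟨p, hp, rfl⟩ := mem_image.mp hq
    simp only [mem_filter, mem_univ, true_and] at hp ⊢
    intro h
    rw [h1 p hp] at h
    apply hf p
    rw [← h]
    simp
  have hc := card_filter_add_card_filter_not (s := (univ : Finset α)) (fun p => g p = p)
  rw [card_univ] at hc
  have hi := card_image_of_injective (univ.filter fun p => g p = p) x.injective
  have hle := card_le_card hsub
  refine ⟨by omega, fun hn q hq => ?_⟩
  have heq := eq_of_subset_of_card_le hsub (by omega)
  have : q ∈ (univ.filter fun p => g p = p).image x := by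
    rw [heq]
    simpa using hq
  obtain ⟨p, hp, rfl⟩ := mem_image.mp this
  rw [h1 p (mem_filter.mp hp).2]
  simp

theorem semiregular {π : α → Perm α} (hS : Sharp π) (T : Finset α)
    (hT : Fintype.card α < 2 * T.card) (y : Perm α) (hy : ∀ t ∈ T, Commute y (π t)) (p : α)
    (hp : y p = p) : y = 1 := by
  ext q
  by_contra hq
  have h1 : T.card ≤ (univ.filter fun x => y x = x).card := by
    rw [← card_filter_sharp hS p]
    apply card_le_card
    intro t ht
    have := congrArg (fun z : Perm α => z p) (hy t ht).eq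
    simpa [hp] using this
  have h2 : T.card ≤ (univ.filter fun x => ¬ y x = x).card := by
    rw [← card_filter_sharp hS q]
    apply card_le_card
    intro t ht
    have := congrArg (fun z : Perm α => z q) (hy t ht).eq
    simp only [Perm.mul_apply] at this
    simp only [mem_filter, mem_univ, true_and, this]
    intro h
    exact hq ((π t).injective h)
  have hc := card_filter_add_card_filter_not (s := (univ : Finset α)) (fun x => y x = x)
  rw [card_univ] at hc
  omega

theorem inv_of_good {G : Type*} [Group G] {x t : G} (ht : t * t = 1)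
    (h : x⁻¹ * t * (x⁻¹ * t) = 1) : t * x = x⁻¹ * t := by
  have h1 : t⁻¹ = t := inv_eq_of_mul_eq_one_right ht
  have h2 : (x⁻¹ * t)⁻¹ = x⁻¹ * t := inv_eq_of_mul_eq_one_right h
  rw [mul_inv_rev, inv_inv, h1] at h2
  exact h2

theorem structure_lemma {π : α → Perm α} (hS : Sharp π) {b : ℕ}
    (hb : ∀ r c, (bad π r c).card ≤ b) (hn : 8 * b ≤ Fintype.card α) {e : α} (he : π e = 1)
    {c : α} (hc : π c * π c ≠ 1) (s : α) :
    Fintype.card α = 8 * b ∧ π c * π c * (π c * π c) = 1 ∧ Commute (π c * π c) (π s) ∧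
      (π s * π s = 1 ∨ π s * π s = π c * π c) := by
  let N : α → Finset α := fun r =>
    univ.filter fun t => (π r)⁻¹ * π t * ((π r)⁻¹ * π t) ≠ 1
  have hN : ∀ r, (N r).card ≤ b := by
    intro r
    refine le_trans (card_le_card ?_) (hb r e)
    intro t ht
    simp only [N, bad, mem_filter, mem_univ, true_and] at ht ⊢
    intro h
    apply ht
    ext q
    exact dichotomy hS hb hn r t e q h
  have fpf : ∀ t, π t * π t ≠ 1 → ∀ p, π t (π t p) ≠ p := by
    intro t ht p hp
    apply ht
    ext q
    have := dichotomy hS hb hn e t p q (by simpa [he] using hp)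
    simpa [he] using this
  have hb1 : 1 ≤ b := by
    refine le_trans (card_pos.mpr ⟨c, ?_⟩) (hN e)
    simpa [N, he] using hc
  let Y : Finset α := N e ∪ N c ∪ N s
  have hY : Y.card ≤ 3 * b := by
    have h1 := card_union_le (N e ∪ N c) (N s)
    have h2 := card_union_le (N e) (N c)
    have := hN e
    have := hN c
    have := hN s
    simp only [Y]
    omega
  have hYp : ∀ t, t ∉ Y →
      π t * π t = 1 ∧ π t * π c = (π c)⁻¹ * π t ∧ π t * π s = (π s)⁻¹ * π t := by
    intro t ht
    simp only [Y, N, mem_union, mem_filter, mem_univ, true_and, not_or, not_not, he, inv_one,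
      one_mul] at ht
    exact ⟨ht.1.1, inv_of_good ht.1.1 ht.1.2, inv_of_good ht.1.1 ht.2⟩
  obtain ⟨b2, hb2⟩ : ∃ t, t ∉ Y := by
    by_contra h
    push Not at h
    have : (univ : Finset α).card ≤ Y.card := card_le_card fun t _ => h t
    rw [card_univ] at this
    omega
  obtain ⟨b1, hb1', b3, hb3, h123⟩ : ∃ t, t ∉ Y ∧ ∃ t', t' ∉ Y ∧ π t' e = π b2 (π t e) := by
    by_contra h
    push Not at h
    let Y' : Finset α := univ.filter fun t => ∃ t' ∈ Y, π t' e = π b2 (π t e)
    have h1 : Y'.card ≤ Y.card := by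
      have : Y'.image (fun t => π b2 (π t e)) ⊆ Y.image (fun t => π t e) := by
        intro x hx
        obtain ⟨t, ht, rfl⟩ := mem_image.mp hx
        obtain ⟨t', ht', h'⟩ := (mem_filter.mp ht).2
        exact mem_image.mpr ⟨t', ht', h'⟩
      have h2 := card_le_card this
      rw [card_image_of_injective _ (f := fun t => π b2 (π t e))
        ((π b2).injective.comp (hS e).1)] at h2
      exact h2.trans card_image_le
    have : (univ : Finset α).card ≤ (Y ∪ Y').card := by
      apply card_le_card
      intro t _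
      by_cases ht : t ∈ Y
      · exact mem_union_left _ ht
      · obtain ⟨t', ht'⟩ := (hS e).2 (π b2 (π t e))
        refine mem_union_right _ (mem_filter.mpr ⟨mem_univ _, t', ?_, ht'⟩)
        by_contra h'
        exact h t ht t' h' ht'
    have h3 := card_union_le Y Y'
    rw [card_univ] at this
    omega
  obtain ⟨s1, c1, d1⟩ := hYp b1 hb1'
  obtain ⟨s2, c2, d2⟩ := hYp b2 hb2
  obtain ⟨s3, c3, d3⟩ := hYp b3 hb3
  set g := π b1 * π b2 * π b3 with hg
  have hge : g e = e := by
    have a1 := congrArg (fun z : Perm α => z (π b1 e)) s2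
    have a2 := congrArg (fun z : Perm α => z e) s1
    simp only [Perm.mul_apply, Perm.one_apply] at a1 a2
    simp only [hg, Perm.mul_apply, h123, a1, a2]
  have ginv : ∀ x : Perm α, π b1 * x = x⁻¹ * π b1 → π b2 * x = x⁻¹ * π b2 →
      π b3 * x = x⁻¹ * π b3 → g * x = x⁻¹ * g := by
    intro x h1 h2 h3
    have h2' : π b2 * x⁻¹ = x * π b2 := by
      calc π b2 * x⁻¹ = x * (x⁻¹ * π b2) * x⁻¹ := by group
        _ = x * π b2 := by rw [← h2]; group
    calc g * x = π b1 * π b2 * (π b3 * x) := by rw [hg]; group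
      _ = π b1 * (π b2 * x⁻¹) * π b3 := by rw [h3]; group
      _ = (π b1 * x) * π b2 * π b3 := by rw [h2']; group
      _ = x⁻¹ * g := by rw [h1, hg]; group
  have hfix : Fintype.card α ≤ (univ.filter fun p => g p = p).card + 4 * b := by
    rw [← card_filter_sharp hS e]
    have h1 : (univ : Finset α) ⊆ (univ.filter fun t => g (π t e) = π t e) ∪
        (N e ∪ N b1 ∪ N b2 ∪ N b3) := by
      intro w _
      by_cases hw : w ∈ N e ∪ N b1 ∪ N b2 ∪ N b3
      · exact mem_union_right _ hw
      · apply mem_union_left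
        simp only [N, mem_union, mem_filter, mem_univ, true_and, not_or, not_not, he, inv_one,
          one_mul] at hw ⊢
        have w0 : (π w)⁻¹ = π w := inv_eq_of_mul_eq_one_right hw.1.1.1
        have aux : ∀ t, π t * π t = 1 → (π t)⁻¹ * π w * ((π t)⁻¹ * π w) = 1 →
            π t * π w = (π w)⁻¹ * π t := by
          intro t h1 h2
          have := inv_of_good hw.1.1.1 h2
          rw [inv_eq_of_mul_eq_one_right h1] at this
          rw [w0, this]
        have := ginv (π w) (aux b1 s1 hw.1.1.2) (aux b2 s2 hw.1.2) (aux b3 s3 hw.2)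
        rw [w0] at this
        have := congrArg (fun z : Perm α => z e) this
        simpa [hge] using this
    have h2 := card_le_card h1
    have h3 := card_union_le (univ.filter fun t => g (π t e) = π t e) (N e ∪ N b1 ∪ N b2 ∪ N b3)
    have h4 := card_union_le (N e ∪ N b1 ∪ N b2) (N b3)
    have h5 := card_union_le (N e ∪ N b1) (N b2)
    have h6 := card_union_le (N e) (N b1)
    have := hN e
    have := hN b1
    have := hN b2
    have := hN b3
    rw [card_univ] at h2
    omega
  have hhalf := (half_lemma g (π c) (ginv _ c1 c2 c3) (fpf c hc)).1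
  have hcard : Fintype.card α ≤ 2 * (univ.filter fun p => g p = p).card := by omega
  have main : ∀ x : Perm α, g * x = x⁻¹ * g → (∀ p, x (x p) ≠ p) →
      (∀ q, g q ≠ q → g q = x (x q)) ∧ x * x * (x * x) = 1 ∧ g (x e) ≠ x e := by
    intro x hx hf
    have hx' : g * x⁻¹ = x⁻¹⁻¹ * g := by
      calc g * x⁻¹ = x * (x⁻¹ * g) * x⁻¹ := by group
        _ = x⁻¹⁻¹ * g := by rw [← hx]; group
    have hf' : ∀ p, x⁻¹ (x⁻¹ p) ≠ p := by
      intro p hp
      apply hf p
      conv_lhs => rw [← hp]
      simp
    have a1 := (half_lemma g x hx hf).2 hcard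
    have a2 := (half_lemma g x⁻¹ hx' hf').2 hcard
    rw [inv_inv] at a2
    have a3 : ∀ p, g p = p → g (x p) ≠ x p := by
      intro p hp h
      have := congrArg (fun y : Perm α => y p) hx
      simp only [Perm.mul_apply, hp, h] at this
      apply hf p
      rw [this]
      simp
    have a4 : ∀ q, g q ≠ q → x (x (x (x q))) = q := by
      intro q hq
      rw [← a2 q hq, a1 q hq]
      simp
    refine ⟨a2, ?_, a3 e hge⟩
    ext p
    simp only [Perm.mul_apply, Perm.one_apply]
    by_cases hp : g p = p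
    · exact x.injective (a4 _ (a3 p hp))
    · exact a4 p hp
  obtain ⟨m1, m2, m3⟩ := main (π c) (ginv _ c1 c2 c3) (fpf c hc)
  have hT : Fintype.card α < 2 * Yᶜ.card := by
    rw [card_compl]
    omega
  have sqcomm : ∀ x t : Perm α, x * x * (x * x) = 1 → t * x = x⁻¹ * t → Commute (x * x) t := by
    intro x t h1 h2
    have h3 : (x * x)⁻¹ = x * x := inv_eq_of_mul_eq_one_right h1
    have : t * (x * x) = (x * x)⁻¹ * t := by
      calc t * (x * x) = (t * x) * x := by group
        _ = x⁻¹ * (t * x) := by conv_lhs => rw [h2, mul_assoc]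
        _ = (x * x)⁻¹ * t := by rw [h2]; group
    rw [h3] at this
    exact this.symm
  refine ⟨by omega, m2, ?_⟩
  by_cases hs : π s * π s = 1
  · refine ⟨?_, Or.inl hs⟩
    have s0 : (π s)⁻¹ = π s := inv_eq_of_mul_eq_one_right hs
    have gs := ginv _ d1 d2 d3
    rw [s0] at gs
    have hy := semiregular hS Yᶜ hT ((π c * π c)⁻¹ * (π s * (π c * π c) * (π s)⁻¹)) (by
      intro t ht
      obtain ⟨_, t2, t3⟩ := hYp t (mem_compl.mp ht)
      rw [s0] at t3
      have k1 := sqcomm _ _ m2 t2
      have k2 : Commute (π s) (π t) := t3.symm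
      exact k1.inv_left.mul_left ((k2.mul_left k1).mul_left k2.inv_left)) (π c e) (by
      have q1 : g (π s (π c e)) = π s (g (π c e)) := congrArg (fun z : Perm α => z (π c e)) gs
      have q2 : g (π s (π c e)) ≠ π s (π c e) := by
        rw [q1]
        intro h
        exact m3 ((π s).injective h)
      have q3 := congrArg (fun z : Perm α => z (g (π c e))) hs
      simp only [Perm.mul_apply, Perm.one_apply] at q3
      simp only [s0, Perm.mul_apply]
      rw [← m1 _ q2, q1, q3, m1 _ m3]
      simp)
    rw [inv_mul_eq_one, eq_mul_inv_iff_mul_eq] at hy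
    exact hy
  · obtain ⟨n1, n2, _⟩ := main (π s) (ginv _ d1 d2 d3) (fpf s hs)
    have hy := semiregular hS Yᶜ hT ((π c * π c)⁻¹ * (π s * π s)) (by
      intro t ht
      obtain ⟨_, t2, t3⟩ := hYp t (mem_compl.mp ht)
      exact (sqcomm _ _ m2 t2).inv_left.mul_left (sqcomm _ _ n2 t3)) (π c e) (by
      simp only [Perm.mul_apply]
      rw [← n1 _ m3, m1 _ m3]
      simp)
    rw [inv_mul_eq_one] at hy
    refine ⟨?_, Or.inr hy.symm⟩
    rw [hy]
    exact (Commute.refl _).mul_left (Commute.refl _)

theorem exists_central {π : α → Perm α} (hS : Sharp π) {b : ℕ}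
    (hb : ∀ r c, (bad π r c).card ≤ b) (hn : 8 * b ≤ Fintype.card α) (r s : α) :
    (π r)⁻¹ * π s * ((π r)⁻¹ * π s) * ((π r)⁻¹ * π s * ((π r)⁻¹ * π s)) = 1 ∧
      ∀ t, Commute ((π r)⁻¹ * π s * ((π r)⁻¹ * π s)) ((π r)⁻¹ * π t) := by
  by_cases h : (π r)⁻¹ * π s * ((π r)⁻¹ * π s) = 1
  · rw [h]
    simp
  · have hb' : ∀ r' c, (bad (fun t => (π r)⁻¹ * π t) r' c).card ≤ b := by
      intro r' c
      have : bad (fun t => (π r)⁻¹ * π t) r' c = bad π r' c := by
        unfold bad
        congr 1
        ext t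
        rw [show ((π r)⁻¹ * π r')⁻¹ * ((π r)⁻¹ * π t) = (π r')⁻¹ * π t by group]
      rw [this]
      exact hb r' c
    have := fun t => structure_lemma (hS.mul (π r)⁻¹) hb' hn (e := r) (by simp) (c := s) h t
    exact ⟨(this s).2.1, fun t => (this t).2.2.1⟩

theorem card_eq_two_pow {π : α → Perm α} (hS : Sharp π) {b : ℕ}
    (hb : ∀ r c, (bad π r c).card ≤ b) (hn : 8 * b ≤ Fintype.card α) {e : α} (he : π e = 1) :
    ∃ k, Fintype.card α = 2 ^ k := by
  let H : Subgroup (Perm α) := Subgroup.closure (Set.range π)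
  have memH : ∀ s, π s ∈ H := fun s => Subgroup.subset_closure ⟨s, rfl⟩
  let K : Perm α → Prop := fun z => z ∈ H ∧ z * z = 1 ∧ ∀ x ∈ H, Commute z x
  have K1 : K 1 := ⟨H.one_mem, by simp, fun x _ => Commute.one_left x⟩
  have Kmul : ∀ x y, K x → K y → K (x * y) := by
    intro x y hx hy
    refine ⟨H.mul_mem hx.1 hy.1, ?_, fun w hw => (hx.2.2 w hw).mul_left (hy.2.2 w hw)⟩
    have := (hx.2.2 y hy.1).eq
    calc x * y * (x * y) = x * (y * x) * y := by group
      _ = (x * x) * (y * y) := by rw [← this]; group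
      _ = 1 := by rw [hx.2.1, hy.2.1, one_mul]
  have Ksq : ∀ r s, K ((π r)⁻¹ * π s * ((π r)⁻¹ * π s)) := by
    intro r s
    obtain ⟨h1, h2⟩ := exists_central hS hb hn r s
    have hm := H.mul_mem (H.inv_mem (memH r)) (memH s)
    refine ⟨H.mul_mem hm hm, h1, ?_⟩
    intro x hx
    induction hx using Subgroup.closure_induction with
    | mem x hx =>
      obtain ⟨t, rfl⟩ := hx
      have a1 := (h2 e).inv_right
      rw [he, mul_one, inv_inv] at a1
      have a2 := a1.mul_right (h2 t)
      rwa [mul_inv_cancel_left] at a2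
    | one => exact Commute.one_right _
    | mul x y _ _ hx hy => exact hx.mul_right hy
    | inv x _ hx => exact hx.inv_right
  have Ksq1 : ∀ s, K (π s * π s) := fun s => by simpa [he] using Ksq e s
  have step : ∀ (x : Perm α) (hx : x ∈ H), (∀ s, ∃ k, K k ∧ x * π s = π s * x * k) →
      ∀ y ∈ H, ∃ k, K k ∧ x * y = y * x * k := by
    intro x hxH hx y hy
    induction hy using Subgroup.closure_induction with
    | mem y hy =>
      obtain ⟨t, rfl⟩ := hy
      exact hx t
    | one => exact ⟨1, K1, by simp⟩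
    | mul y w hyH hwH hy hw =>
      obtain ⟨k, hk, e1⟩ := hy
      obtain ⟨k', hk', e2⟩ := hw
      refine ⟨k' * k, Kmul _ _ hk' hk, ?_⟩
      have := (hk.2.2 w hwH).eq
      calc x * (y * w) = (x * y) * w := by group
        _ = y * x * (k * w) := by rw [e1]; group
        _ = y * (x * w) * k := by rw [this]; group
        _ = y * w * x * (k' * k) := by rw [e2]; group
    | inv y hyH hy =>
      obtain ⟨k, hk, e1⟩ := hy
      refine ⟨k, hk, ?_⟩
      have a1 := (hk.2.2 y hyH).eq
      have a2 : y * x = x * y * k := by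
        rw [e1, mul_assoc, hk.2.1, mul_one]
      calc x * y⁻¹ = y⁻¹ * (y * x) * y⁻¹ := by group
        _ = y⁻¹ * x * (y * k) * y⁻¹ := by rw [a2]; group
        _ = y⁻¹ * x * k := by rw [← a1]; group
  have gen : ∀ r s, ∃ k, K k ∧ π r * π s = π s * π r * k := by
    intro r s
    refine ⟨(π r * π r) * (π s * π s) * ((π r)⁻¹ * π s * ((π r)⁻¹ * π s)),
      Kmul _ _ (Kmul _ _ (Ksq1 r) (Ksq1 s)) (Ksq r s), ?_⟩
    have a1 := (Ksq1 r).2.1
    have a2 := (Ksq r s).2.1
    have a6 := ((Ksq r s).2.2 _ (memH s)).eq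
    set x := π r
    set y := π s
    set w := x⁻¹ * y * (x⁻¹ * y) with hw
    have b1 : x⁻¹ = x * (x * x) := by
      rw [inv_eq_iff_mul_eq_one, ← a1]
      simp only [mul_assoc]
    have e1 : x * w = y * x⁻¹ * y := by
      rw [hw]
      simp only [← mul_assoc, mul_inv_cancel, one_mul]
    have e2 : x * y * w = y * x * (x * x * (y * y)) := by
      rw [mul_assoc, ← a6, ← mul_assoc, e1, b1]
      simp only [mul_assoc]
    calc x * y = x * y * (w * w) := by rw [a2, mul_one]
      _ = y * x * (x * x * (y * y) * w) := by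
        rw [← mul_assoc, e2]
        simp only [mul_assoc]
  have all : ∀ x ∈ H, ∀ y ∈ H, ∃ k, K k ∧ x * y = y * x * k := by
    intro x hx
    apply step x hx
    intro s
    obtain ⟨k, hk, h⟩ := step (π s) (memH s) (gen s) x hx
    refine ⟨k, hk, ?_⟩
    rw [h, mul_assoc, hk.2.1, mul_one]
  have sq : ∀ x ∈ H, K (x * x) := by
    intro x hx
    induction hx using Subgroup.closure_induction with
    | mem y hy =>
      obtain ⟨t, rfl⟩ := hy
      exact Ksq1 t
    | one => simpa using K1
    | mul y w hyH hwH hy hw =>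
      obtain ⟨k, hk, e1⟩ := all w hwH y hyH
      have a1 := (hk.2.2 w hwH).eq
      have : y * w * (y * w) = (y * y) * (w * w) * k := by
        calc y * w * (y * w) = y * (w * y) * w := by group
          _ = y * y * w * (k * w) := by rw [e1]; group
          _ = (y * y) * (w * w) * k := by rw [a1]; group
      rw [this]
      exact Kmul _ _ (Kmul _ _ hy hw) hk
    | inv y hyH hy =>
      have : y⁻¹ * y⁻¹ = y * y := by
        rw [← mul_inv_rev]
        exact inv_eq_of_mul_eq_one_right hy.2.1
      rwa [this]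
  have hP : IsPGroup 2 H := by
    intro x
    refine ⟨2, Subtype.ext ?_⟩
    have := (sq x.1 x.2).2.1
    simp only [Subgroup.coe_pow, Subgroup.coe_one]
    rw [← this]
    norm_num [pow_succ, mul_assoc]
  have : Fact (Nat.Prime 2) := ⟨Nat.prime_two⟩
  obtain ⟨k, hk⟩ := hP.card_orbit (α := α) e
  refine ⟨k, ?_⟩
  have horb : MulAction.orbit H e = Set.univ := by
    apply Set.eq_univ_of_forall
    intro q
    obtain ⟨s, hs⟩ := (hS e).2 q
    exact ⟨⟨π s, memH s⟩, hs⟩
  rw [horb, Nat.card_univ, Nat.card_eq_fintype_card] at hk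
  exact hk

theorem bad_card_ne_one {π : α → Perm α} (hS : Sharp π) (r c : α) : (bad π r c).card ≠ 1 := by
  intro h
  obtain ⟨s, hs⟩ := card_eq_one.mp h
  have h1 : s ∈ bad π r c := by simp [hs]
  simp only [bad, mem_filter, mem_univ, true_and] at h1
  set a := (π r)⁻¹ * π s with ha
  obtain ⟨t, ht⟩ := (hS.mul (π r)⁻¹ c).2 (a⁻¹ c)
  simp only at ht
  have hts : t ≠ s := by
    rintro rfl
    apply h1
    rw [ht]
    simp
  have : t ∈ bad π r c := by
    simp only [bad, mem_filter, mem_univ, true_and, ht]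
    intro h2
    apply hts
    apply (hS.mul (π r)⁻¹ (a⁻¹ c)).1
    simp only [h2, ← ha]
    simp
  rw [hs, mem_singleton] at this
  exact hts this

end Pool.Agent.Work.MP_03d2dd_co
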