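import Pool.Agent.Work.MP_03d2dd_co.Main
import Pool.Agent.Work.MP_03d2dd_co.Gadget
import Mathlib.Algebra.BigOperators.Ring.Finset
import Mathlib.Data.Fintype.BigOperators

/-! Lifting a latin square so that each intercalate acquires a prescribed multiplicity. -/

namespace Pool.Agent.Work.MP_03d2dd_co

open Finset

theorem card_pi_filter {T Φ : Type} [Fintype T] [DecidableEq T] [Fintype Φ]
    (A : T → Φ × Φ → Prop) [∀ t, DecidablePred (A t)] :
    (univ.filter fun p : (T → Φ) × (T → Φ) => ∀ t, A t (p.1 t, p.2 t)).card =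
      ∏ t, (univ.filter (A t)).card := by
  rw [← Fintype.card_piFinset]
  refine card_bij (fun p _ t => (p.1 t, p.2 t)) ?_ ?_ ?_
  · intro p hp
    simpa using hp
  · rintro ⟨x, y⟩ _ ⟨x', y'⟩ _ h
    simp only [funext_iff, Prod.mk.injEq] at h ⊢
    exact ⟨fun t => (h t).1, fun t => (h t).2⟩
  · intro z hz
    exact ⟨(fun t => (z t).1, fun t => (z t).2), by simpa using hz, rfl⟩

section

variable {α Φ : Type} [LinearOrder α] [CommRing Φ]

/-- A sorted intercalate. -/
def Good (K : α → α → α) (t : α × α × α × α) : Prop :=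
  t.1 < t.2.1 ∧ t.2.2.1 < t.2.2.2 ∧ K t.1 t.2.2.1 = K t.2.1 t.2.2.2 ∧ K t.1 t.2.2.2 = K t.2.1 t.2.2.1

/-- The cell lies in the sorted intercalate. -/
def Ins (K : α → α → α) (t : α × α × α × α) (r c : α) : Prop :=
  Good K t ∧ (r = t.1 ∨ r = t.2.1) ∧ (c = t.2.2.1 ∨ c = t.2.2.2)

open Classical in
/-- The latin square placed over a cell in one coordinate of the fibre. -/
noncomputable def face (K : α → α → α) (f : α × α × α × α → Bool → Bool → Φ → Φ → Φ)
    (t : α × α × α × α) (r c : α) : Φ → Φ → Φ :=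
  if Ins K t r c then f t (decide (r = t.2.1)) (decide (c = t.2.2.2)) else (· + ·)

theorem ins_two [Fintype α] {K : α → α → α} (hK : IsLatin K) {r r' c c' : α} (hr : r' ≠ r)
    (hc : c' ≠ c) (e1 : K r c = K r' c') (e2 : K r c' = K r' c) {t : α × α × α × α}
    (ht : t ≠ (min r r', max r r', min c c', max c c')) :
    ¬(Ins K t r c ∧ Ins K t r c') ∧ ¬(Ins K t r c ∧ Ins K t r' c) ∧
    ¬(Ins K t r c ∧ Ins K t r' c') ∧ ¬(Ins K t r c' ∧ Ins K t r' c) ∧
    ¬(Ins K t r c' ∧ Ins K t r' c') ∧ ¬(Ins K t r' c ∧ Ins K t r' c') := by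
  obtain ⟨r1, r2, c1, c2⟩ := t
  have R : ∀ {a b b'}, K a b = K a b' → b = b' := fun {a} _ _ h => (hK.1 a).1 h
  have C : ∀ {b a a'}, K a b = K a' b → a = a' := fun {b} _ _ h => (hK.2 b).1 h
  have four : r1 < r2 → c1 < c2 → (r = r1 ∨ r = r2) → (r' = r1 ∨ r' = r2) → (c = c1 ∨ c = c2) →
      (c' = c1 ∨ c' = c2) → False := by
    intro g1 g2 a1 a2 a3 a4
    apply ht
    have k1 : r1 = min r r' ∧ r2 = max r r' := by
      rcases a1 with rfl | rfl <;> rcases a2 with rfl | rfl
      · exact absurd rfl hr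
      · rw [min_eq_left g1.le, max_eq_right g1.le]
        exact ⟨rfl, rfl⟩
      · rw [min_eq_right g1.le, max_eq_left g1.le]
        exact ⟨rfl, rfl⟩
      · exact absurd rfl hr
    have k2 : c1 = min c c' ∧ c2 = max c c' := by
      rcases a3 with rfl | rfl <;> rcases a4 with rfl | rfl
      · exact absurd rfl hc
      · rw [min_eq_left g2.le, max_eq_right g2.le]
        exact ⟨rfl, rfl⟩
      · rw [min_eq_right g2.le, max_eq_left g2.le]
        exact ⟨rfl, rfl⟩
      · exact absurd rfl hc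
    rw [← k1.1, ← k1.2, ← k2.1, ← k2.2]
  have rowc : ∀ {s s' d d' : α}, d' ≠ d → K s d' = K s' d → Good K (r1, r2, c1, c2) →
      (s = r1 ∨ s = r2) → (d = c1 ∨ d = c2) → (d' = c1 ∨ d' = c2) → (s' = r1 ∨ s' = r2) := by
    rintro s s' d d' hd e ⟨-, -, g3, g4⟩ a1 a2 a3
    simp only at g3 g4
    rcases a1 with rfl | rfl <;> rcases a2 with rfl | rfl <;> rcases a3 with rfl | rfl
    all_goals first
      | exact absurd rfl hd
      | exact Or.inr (C (e.symm.trans g4))
      | exact Or.inr (C (e.symm.trans g3))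
      | exact Or.inl (C (e.symm.trans g3.symm))
      | exact Or.inl (C (e.symm.trans g4.symm))
  have colc : ∀ {s s' d d' : α}, s' ≠ s → K s d' = K s' d → Good K (r1, r2, c1, c2) →
      (s = r1 ∨ s = r2) → (s' = r1 ∨ s' = r2) → (d = c1 ∨ d = c2) → (d' = c1 ∨ d' = c2) := by
    rintro s s' d d' hd e ⟨-, -, g3, g4⟩ a1 a2 a3
    simp only at g3 g4
    rcases a1 with rfl | rfl <;> rcases a2 with rfl | rfl <;> rcases a3 with rfl | rfl
    all_goals first
      | exact absurd rfl hd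
      | exact Or.inr (R (e.trans g4.symm))
      | exact Or.inl (R (e.trans g3.symm))
      | exact Or.inr (R (e.trans g3))
      | exact Or.inl (R (e.trans g4))
  refine ⟨?_, ?_, ?_, ?_, ?_, ?_⟩ <;> rintro ⟨⟨g, a1, a2⟩, -, a3, a4⟩
  · exact four g.1 g.2.1 a1 (rowc hc e2 g a1 a2 a4) a2 a4
  · exact four g.1 g.2.1 a1 a3 a2 (colc hr e2 g a1 a3 a2)
  · exact four g.1 g.2.1 a1 a3 a2 a4
  · exact four g.1 g.2.1 a1 a3 a4 a2
  · exact four g.1 g.2.1 a1 a3 (colc hr e1 g a1 a3 a2) a2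
  · exact four g.1 g.2.1 (rowc hc e1.symm g a1 a2 a4) a1 a2 a4

variable [Fintype Φ] [DecidableEq Φ]

theorem face_face (h2 : ∀ x y : Φ, x + x = y + y → x = y) {K : α → α → α}
    {f : α × α × α × α → Bool → Bool → Φ → Φ → Φ} {v : α × α × α × α → ℕ}
    (hf : ∀ t, IsGadget (f t) (v t)) (t : α × α × α × α) (r c : α) : Face (face K f t r c) := by
  unfold face
  split_ifs
  · exact (hf t).1 _ _
  · exact face_add h2

theorem quad_other [Fintype α] (h2 : ∀ x y : Φ, x + x = y + y → x = y) {K : α → α → α}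
    (hK : IsLatin K) {f : α × α × α × α → Bool → Bool → Φ → Φ → Φ} {v : α × α × α × α → ℕ}
    (hf : ∀ t, IsGadget (f t) (v t)) {r r' c c' : α} (hr : r' ≠ r)
    (hc : c' ≠ c) (e1 : K r c = K r' c') (e2 : K r c' = K r' c) {t : α × α × α × α}
    (ht : t ≠ (min r r', max r r', min c c', max c c')) (x y : Φ) :
    quad (face K f t r c) (face K f t r c') (face K f t r' c) (face K f t r' c') x y = 1 := by
  obtain ⟨n1, n2, n3, n4, n5, n6⟩ := ins_two hK hr hc e1 e2 ht
  have z : ∀ {a b}, ¬Ins K t a b → face K f t a b = (· + ·) := fun h => if_neg h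
  by_cases i1 : Ins K t r c
  · rw [z fun h => n1 ⟨i1, h⟩, z fun h => n2 ⟨i1, h⟩, z fun h => n3 ⟨i1, h⟩]
    exact quad_one₁ h2 _ _ _
  by_cases i2 : Ins K t r c'
  · rw [z i1, z fun h => n4 ⟨i2, h⟩, z fun h => n5 ⟨i2, h⟩]
    exact (face_face h2 hf _ _ _).quad_one₂ _ _
  by_cases i3 : Ins K t r' c
  · rw [z i1, z i2, z fun h => n6 ⟨i3, h⟩]
    exact (face_face h2 hf _ _ _).quad_one₃ _ _
  · rw [z i1, z i2, z i3]
    exact (face_face h2 hf _ _ _).quad_one₄ _ _

theorem quad_own {K : α → α → α}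
    {f : α × α × α × α → Bool → Bool → Φ → Φ → Φ} {v : α × α × α × α → ℕ}
    (hf : ∀ t, IsGadget (f t) (v t)) {r r' c c' : α} (hr : r' ≠ r)
    (hc : c' ≠ c) (e1 : K r c = K r' c') (e2 : K r c' = K r' c) {t : α × α × α × α}
    (ht : t = (min r r', max r r', min c c', max c c')) (x y : Φ) :
    quad (face K f t r c) (face K f t r c') (face K f t r' c) (face K f t r' c') x y = v t := by
  have g : Good K t ∧ ((r = t.1 ∧ r' = t.2.1) ∨ (r = t.2.1 ∧ r' = t.1)) ∧
      ((c = t.2.2.1 ∧ c' = t.2.2.2) ∨ (c = t.2.2.2 ∧ c' = t.2.2.1)) := by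
    subst ht
    unfold Good
    rcases hr.lt_or_gt with a | a <;> rcases hc.lt_or_gt with b | b <;>
      simp only [min_eq_left a.le, max_eq_right a.le, min_eq_right a.le, max_eq_left a.le,
        min_eq_left b.le, max_eq_right b.le, min_eq_right b.le, max_eq_left b.le, a, b, e1, e2,
        and_self, true_or, or_true]
  obtain ⟨g1, g2, g3⟩ := g
  have i1 : Ins K t r c := ⟨g1, by tauto, by tauto⟩
  have i2 : Ins K t r c' := ⟨g1, by tauto, by tauto⟩
  have i3 : Ins K t r' c := ⟨g1, by tauto, by tauto⟩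
  have i4 : Ins K t r' c' := ⟨g1, by tauto, by tauto⟩
  have b1 : decide (r' = t.2.1) = !decide (r = t.2.1) := by
    rcases g2 with ⟨a, b⟩ | ⟨a, b⟩
    · simp [← b, hr.symm]
    · simp [← a, hr]
  have b2 : decide (c' = t.2.2.2) = !decide (c = t.2.2.2) := by
    rcases g3 with ⟨a, b⟩ | ⟨a, b⟩
    · simp [← b, hc.symm]
    · simp [← a, hc]
  unfold face
  rw [if_pos i1, if_pos i2, if_pos i3, if_pos i4, b1, b2]
  exact (hf t).2 _ _ _ _

end

theorem lift {α Φ : Type} [Fintype α] [DecidableEq α] [CommRing Φ] [Fintype Φ] [DecidableEq Φ]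
    (h2 : ∀ x y : Φ, x + x = y + y → x = y) {K : α → α → α} (hK : IsLatin K)
    (w : α → α → α → α → ℕ) (s1 : ∀ r r' c c', w r r' c c' = w r' r c c')
    (s2 : ∀ r r' c c', w r r' c c' = w r r' c' c)
    (hg : ∀ r r' c c', ∃ f : Bool → Bool → Φ → Φ → Φ, IsGadget f (w r r' c c')) {h : ℕ}
    (hs : ∀ r c, ∑ p ∈ univ.filter (fun p : α × α =>
      p.1 ≠ r ∧ p.2 ≠ c ∧ K r c = K p.1 p.2 ∧ K r p.2 = K p.1 c), w r p.1 c p.2 = h) :
    Ex (Fintype.card α * Fintype.card Φ ^ (Fintype.card α ^ 4)) (h + 1) := by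
  let _ : LinearOrder α := LinearOrder.lift' (Fintype.equivFin α) (Fintype.equivFin α).injective
  choose f0 hf0 using hg
  let f : α × α × α × α → Bool → Bool → Φ → Φ → Φ := fun t => f0 t.1 t.2.1 t.2.2.1 t.2.2.2
  let v : α × α × α × α → ℕ := fun t => w t.1 t.2.1 t.2.2.1 t.2.2.2
  have hf : ∀ t, IsGadget (f t) (v t) := fun t => hf0 _ _ _ _
  have hv : ∀ r r' c c', v (min r r', max r r', min c c', max c c') = w r r' c c' := by
    intro r r' c c'
    rcases le_total r r' with a | a <;> rcases le_total c c' with b | b <;>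
      simp only [v, min_eq_left a, max_eq_right a, min_eq_right a, max_eq_left a,
        min_eq_left b, max_eq_right b, min_eq_right b, max_eq_left b]
    · exact s2 _ _ _ _
    · exact s1 _ _ _ _
    · rw [s1, s2]
  refine ⟨α × (α × α × α × α → Φ), inferInstance, inferInstance,
    fun p q => (K p.1 q.1, fun t => face K f t p.1 q.1 (p.2 t) (q.2 t)), ?_, ⟨?_, ?_⟩, ?_⟩
  · simp only [Fintype.card_prod, Fintype.card_fun]
    congr 2
    ring
  · rintro ⟨r, x⟩
    refine Finite.injective_iff_bijective.1 ?_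
    rintro ⟨c, y⟩ ⟨c', y'⟩ e
    simp only [Prod.mk.injEq, funext_iff] at e ⊢
    obtain rfl : c = c' := (hK.1 r).1 e.1
    exact ⟨rfl, fun t => (face_face h2 hf t r c).row _ _ _ (e.2 t)⟩
  · rintro ⟨c, y⟩
    refine Finite.injective_iff_bijective.1 ?_
    rintro ⟨r, x⟩ ⟨r', x'⟩ e
    simp only [Prod.mk.injEq, funext_iff] at e ⊢
    obtain rfl : r = r' := (hK.2 c).1 e.1
    exact ⟨rfl, fun t => (face_face h2 hf t r c).col _ _ _ (e.2 t)⟩
  · rintro ⟨r, x⟩ ⟨c, y⟩
    have e1 : cnt (fun p q : α × (α × α × α × α → Φ) =>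
        (K p.1 q.1, fun t => face K f t p.1 q.1 (p.2 t) (q.2 t))) (r, x) (c, y) =
        ∑ p : α × α, if K r c = K p.1 p.2 ∧ K r p.2 = K p.1 c then
          ∏ t, quad (face K f t r c) (face K f t r p.2) (face K f t p.1 c) (face K f t p.1 p.2)
            (x t) (y t) else 0 := by
      unfold cnt
      rw [card_filter]
      simp only [Fintype.sum_prod_type]
      refine sum_congr rfl fun r' _ => ?_
      rw [sum_comm]
      refine sum_congr rfl fun c' _ => ?_
      unfold quad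
      rw [← card_pi_filter (fun t (p : Φ × Φ) =>
        face K f t r c (x t) (y t) = face K f t r' c' p.1 p.2 ∧
          face K f t r c' (x t) p.2 = face K f t r' c p.1 (y t)), card_filter,
        Fintype.sum_prod_type]
      simp only [Prod.mk.injEq, funext_iff, forall_and]
      split_ifs with hp
      · simp only [hp.1, hp.2, true_and]
      · refine sum_eq_zero fun _ _ => sum_eq_zero fun _ _ => if_neg fun hq => hp ⟨hq.1.1, hq.2.1⟩
    rw [e1, ← hs r c, sum_filter, ← sum_erase_add _ _ (mem_univ (r, c)),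
      ← sum_erase_add univ _ (mem_univ (r, c))]
    simp only [ne_eq, not_true_eq_false, false_and, if_false, add_zero, and_self, if_true]
    rw [prod_eq_one fun t _ => (face_face h2 hf t r c).quad_same _ _]
    congr 1
    refine sum_congr rfl ?_
    rintro ⟨r', c'⟩ hp
    have hp' : ¬(r' = r ∧ c' = c) := by simpa using hp
    by_cases hq : K r c = K r' c' ∧ K r c' = K r' c
    · have hr : r' ≠ r := by
        rintro rfl
        exact hp' ⟨rfl, (hK.1 r').1 hq.2⟩
      have hc : c' ≠ c := by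
        rintro rfl
        exact hp' ⟨((hK.2 c').1 hq.2).symm, rfl⟩
      rw [if_pos hq, if_pos ⟨hr, hc, hq⟩,
        prod_eq_single (min r r', max r r', min c c', max c c')
          (fun t _ ht => quad_other h2 hK hf hr hc hq.1 hq.2 ht _ _) (by simp),
        quad_own hf hr hc hq.1 hq.2 rfl, hv]
    · rw [if_neg hq, if_neg fun h => hq h.2.2]

/-- The lift with the explicit gadgets. -/
theorem lift_gad {α : Type} [Fintype α] [DecidableEq α] {K : α → α → α} (hK : IsLatin K)
    (w : α → α → α → α → ℕ) (s1 : ∀ r r' c c', w r r' c c' = w r' r c c')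
    (s2 : ∀ r r' c c', w r r' c c' = w r r' c' c) {m D q : ℕ} (hm : Nat.Coprime m 6)
    (hp : q.Prime) (hq : 2 * m + 3 < q) (hw : ∀ r r' c c', w r r' c c' ≤ m ∧ m ≤ w r r' c c' + D)
    {h : ℕ} (hs : ∀ r c, ∑ p ∈ univ.filter (fun p : α × α =>
      p.1 ≠ r ∧ p.2 ≠ c ∧ K r c = K p.1 p.2 ∧ K r p.2 = K p.1 c), w r p.1 c p.2 = h) :
    Ex (Fintype.card α * (m * q ^ D) ^ (Fintype.card α ^ 4)) (h + 1) := by
  have : NeZero m := ⟨by rintro rfl; simp at hm⟩
  have : Fact q.Prime := ⟨hp⟩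
  have u2 : IsUnit (2 : ZMod m) := by
    have := (ZMod.isUnit_iff_coprime 2 m).2
      (Nat.Coprime.symm (Nat.Coprime.coprime_dvd_right (by norm_num) hm))
    exact_mod_cast this
  have g2 : (2 : ZMod q) ≠ 0 := by
    exact_mod_cast cast_ne_zero_of_lt (q := q) (a := 2) (by omega) (by omega)
  have := lift (Φ := ZMod m × (Fin D → ZMod q)) ?_ hK w s1 s2 ?_ hs
  · simpa using this
  · rintro ⟨a, x⟩ ⟨b, y⟩ e
    simp only [Prod.mk_add_mk, Prod.mk.injEq, funext_iff, Pi.add_apply] at e ⊢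
    exact ⟨u2.mul_left_cancel (by linear_combination e.1),
      fun k => mul_left_cancel₀ g2 (by linear_combination e.2 k)⟩
  · intro r r' c c'
    obtain ⟨a, b⟩ := hw r r' c c'
    have := gad_isGadget (m := m) (D := D) (q := q) (e := m - w r r' c c') hm hq (by omega)
      (by omega)
    rw [Nat.sub_sub_self a] at this
    exact ⟨_, this⟩

/-- Multiplying the number of intercalates by a constant. -/
theorem Ex.scale {k h j m D q : ℕ} (H : Ex k (h + 1)) (hm : Nat.Coprime m 6)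
    (hp : q.Prime) (hq : 2 * m + 3 < q) (h1 : j ≤ m) (h2 : m ≤ j + D) :
    Ex (k * (m * q ^ D) ^ (k ^ 4)) (h * j + 1) := by
  obtain ⟨α, _, _, K, rfl, hK, h3⟩ := H
  refine lift_gad hK (fun _ _ _ _ => j) (fun _ _ _ _ => rfl) (fun _ _ _ _ => rfl) hm hp hq
    (fun _ _ _ _ => ⟨h1, h2⟩) fun r c => ?_
  have := cnt_eq hK r c
  rw [h3, add_left_inj] at this
  rw [sum_const, smul_eq_mul, this]
  rfl

end Pool.Agent.Work.MP_03d2dd_co
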