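import Pool.Agent.Work.MP_03d2dd_co.Defs
import Pool.Agent.Work.MP_03d2dd_co.Gap

/-! The top eighth of the spectrum of homogeneous latin squares. -/

namespace Pool.Agent.Work.MP_03d2dd_co

open Finset Equiv

section

variable {α : Type} [Fintype α] [DecidableEq α]

/-- The rows of a latin square as permutations. -/
noncomputable def rows {L : α → α → α} (hL : IsLatin L) (r : α) : Perm α :=
  Equiv.ofBijective (L r) (hL.1 r)

theorem card_eq_of_latin {L : α → α → α} (hL : IsLatin L) (r c : α) :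
    Fintype.card α = intercalates L r c + 1 + (bad (rows hL) r c).card := by
  have happ : ∀ s x, rows hL s x = L s x := fun _ _ => rfl
  have hinv : ∀ y, L r ((rows hL r)⁻¹ y) = y := fun y => by
    rw [← happ]
    simp
  have h1 : intercalates L r c = ((univ.filter fun s =>
      ((rows hL r)⁻¹ * rows hL s) (((rows hL r)⁻¹ * rows hL s) c) = c).erase r).card := by
    unfold intercalates
    apply Finset.card_bij (fun x _ => x.1)
    · rintro ⟨s, d⟩ hx
      simp only [mem_filter, mem_univ, true_and] at hx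
      simp only [mem_erase, mem_filter, mem_univ, true_and, Perm.mul_apply, happ]
      refine ⟨hx.1, ?_⟩
      have hi : ∀ y, (rows hL r)⁻¹ (L r y) = y := fun y => by
        rw [← happ]
        simp
      rw [← hx.2.2.2, hi, ← hx.2.2.1, hi]
    · rintro ⟨s, d⟩ hx ⟨s', d'⟩ hx' h
      simp only [mem_filter, mem_univ, true_and] at hx hx' h
      subst h
      rw [(hL.1 r).1 (hx.2.2.2.trans hx'.2.2.2.symm)]
    · intro s hs
      simp only [mem_erase, mem_filter, mem_univ, true_and, Perm.mul_apply, happ] at hs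
      refine ⟨(s, (rows hL r)⁻¹ (L s c)), ?_, rfl⟩
      simp only [mem_filter, mem_univ, true_and]
      refine ⟨hs.1, ?_, ?_, hinv _⟩
      · intro h
        apply hs.1
        apply (hL.2 c).1
        simp only
        rw [← hinv (L s c), h]
      · conv_lhs => rw [← hs.2]
        exact hinv _
  have h2 := card_filter_add_card_filter_not (s := (univ : Finset α)) (fun s =>
      ((rows hL r)⁻¹ * rows hL s) (((rows hL r)⁻¹ * rows hL s) c) = c)
  have h3 : r ∈ univ.filter fun s =>
      ((rows hL r)⁻¹ * rows hL s) (((rows hL r)⁻¹ * rows hL s) c) = c := by simp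
  have h4 := card_erase_add_one h3
  rw [card_univ] at h2
  unfold bad
  simp only [ne_eq]
  omega

theorem necessary {L : α → α → α} (hL : IsLatin L) {h : ℕ} (hh : IsHomogeneous L h) (e : α)
    (hn : 7 * Fintype.card α ≤ 8 * (h + 1)) :
    ∃ k, Fintype.card α = 2 ^ k ∧
      (h + 1 = Fintype.card α ∨ (4 ≤ k ∧ 8 * (h + 1) = 7 * Fintype.card α)) := by
  have hS0 : Sharp (rows hL) := hL.2
  have hS := hS0.mul (rows hL e)⁻¹
  have hbad : ∀ r c, bad (fun t => (rows hL e)⁻¹ * rows hL t) r c = bad (rows hL) r c := by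
    intro r c
    unfold bad
    congr 1
    ext t
    rw [show ((rows hL e)⁻¹ * rows hL r)⁻¹ * ((rows hL e)⁻¹ * rows hL t) =
      (rows hL r)⁻¹ * rows hL t by group]
  have hc : ∀ r c, Fintype.card α = h + 1 + (bad (rows hL) r c).card := fun r c => by
    rw [← hh r c]
    exact card_eq_of_latin hL r c
  set b := (bad (rows hL) e e).card with hbdef
  have hb : ∀ r c, (bad (fun t => (rows hL e)⁻¹ * rows hL t) r c).card ≤ b := fun r c => by
    have := hc r c
    have := hc e e
    rw [hbad]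
    omega
  have h8 : 8 * b ≤ Fintype.card α := by
    have := hc e e
    omega
  obtain ⟨k, hk⟩ := card_eq_two_pow hS hb h8 (e := e) (by simp)
  refine ⟨k, hk, ?_⟩
  have h0 := hc e e
  rcases Nat.eq_zero_or_pos b with hb0 | hb0
  · left
    omega
  · right
    obtain ⟨c, hc'⟩ := card_pos.mp hb0
    have hne : (rows hL e)⁻¹ * rows hL c * ((rows hL e)⁻¹ * rows hL c) ≠ 1 := by
      intro h1
      apply (mem_filter.mp hc').2
      exact congrArg (fun z : Perm α => z e) h1
    have h1 := (structure_lemma hS hb h8 (e := e) (by simp) (c := c) hne c).1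
    have h2 := bad_card_ne_one hS0 e e
    refine ⟨?_, by omega⟩
    by_contra hk4
    have : 2 ^ k ≤ 2 ^ 3 := Nat.pow_le_pow_right (by norm_num) (by omega)
    omega

/-- Intercalates through a cell together with the degenerate one. -/
def cnt (L : α → α → α) (r c : α) : ℕ :=
  (univ.filter fun x : α × α => L r c = L x.1 x.2 ∧ L r x.2 = L x.1 c).card

theorem cnt_eq {L : α → α → α} (hL : IsLatin L) (r c : α) :
    cnt L r c = intercalates L r c + 1 := by
  unfold cnt intercalates
  rw [← card_erase_add_one (a := (r, c)) (by simp)]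
  congr 2
  ext ⟨s, d⟩
  simp only [mem_erase, mem_filter, mem_univ, true_and, ne_eq, Prod.mk.injEq]
  constructor
  · rintro ⟨h1, h2, h3⟩
    refine ⟨?_, ?_, h2, h3⟩
    · rintro rfl
      exact h1 ⟨rfl, (hL.1 s).1 h3⟩
    · rintro rfl
      exact h1 ⟨((hL.2 d).1 h3).symm, rfl⟩
  · rintro ⟨h1, _, h3⟩
    exact ⟨fun h => h1 h.1, h3⟩

end

/-- There is a latin square of order `n` with `cnt` constantly `m`. -/
def Ex (n m : ℕ) : Prop :=
  ∃ (α : Type) (_ : Fintype α) (_ : DecidableEq α) (L : α → α → α),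
    Fintype.card α = n ∧ IsLatin L ∧ ∀ r c, cnt L r c = m

theorem Ex.mul {n m n' m' : ℕ} (h : Ex n m) (h' : Ex n' m') : Ex (n * n') (m * m') := by
  obtain ⟨α, _, _, L, h1, h2, h3⟩ := h
  obtain ⟨β, _, _, M, k1, k2, k3⟩ := h'
  refine ⟨α × β, inferInstance, inferInstance, fun x y => (L x.1 y.1, M x.2 y.2), ?_, ⟨?_, ?_⟩, ?_⟩
  · rw [Fintype.card_prod, h1, k1]
  · intro r
    exact (h2.1 r.1).prodMap (k2.1 r.2)
  · intro c
    exact (h2.2 c.1).prodMap (k2.2 c.2)
  · intro r c
    rw [← h3 r.1 c.1, ← k3 r.2 c.2]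
    unfold cnt
    rw [← card_product]
    apply Finset.card_bij (fun x _ => ((x.1.1, x.2.1), (x.1.2, x.2.2)))
    · intro x hx
      simp only [mem_filter, mem_univ, true_and, Prod.mk.injEq, mem_product] at hx ⊢
      tauto
    · rintro ⟨⟨a, b⟩, c, d⟩ _ ⟨⟨a', b'⟩, c', d'⟩ _ h
      simp only [Prod.mk.injEq] at h ⊢
      tauto
    · rintro ⟨⟨a, b⟩, c, d⟩ hx
      refine ⟨((a, c), (b, d)), ?_, rfl⟩
      simp only [mem_filter, mem_univ, true_and, Prod.mk.injEq, mem_product] at hx ⊢
      tauto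

theorem ex_one : Ex 1 1 :=
  ⟨Unit, inferInstance, inferInstance, fun _ _ => (), rfl, ⟨by decide, by decide⟩, by decide⟩

theorem ex_two : Ex 2 2 :=
  ⟨Bool, inferInstance, inferInstance, xor, rfl, ⟨by decide, by decide⟩, by decide⟩

/-- A Moufang loop of order 16 with 13 involutions. -/
def loop16 (x y : Bool × Bool × Bool × Bool) : Bool × Bool × Bool × Bool :=
  (xor x.1 y.1, xor x.2.1 y.2.1, xor x.2.2.1 y.2.2.1,
    xor (xor x.2.2.2 y.2.2.2) (xor (xor (x.1 && x.2.1 && y.2.2.1) (x.1 && x.2.2.1 && y.2.1))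
      (x.2.1 && x.2.2.1 && y.1)))

private def l16sb (f : Bool → ℕ) : ℕ := Nat.add (f true) (f false)

private def l16s (f : Bool × Bool × Bool × Bool → ℕ) : ℕ :=
  l16sb fun a => l16sb fun b => l16sb fun c => l16sb fun d => f (a, b, c, d)

private theorem l16sum (f : Bool × Bool × Bool × Bool → ℕ) : ∑ x, f x = l16s f := by
  simp only [Fintype.sum_prod_type, Fintype.sum_bool]
  rfl

private def l16e (x y : Bool × Bool × Bool × Bool) : Bool :=
  bif xor x.1 y.1 then false else bif xor x.2.1 y.2.1 then false else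
    bif xor x.2.2.1 y.2.2.1 then false else !(xor x.2.2.2 y.2.2.2)

private theorem l16e_iff : ∀ x y, l16e x y = true ↔ x = y := by
  rintro ⟨a, b, c, d⟩ ⟨e, f, g, h⟩
  revert a b c d e f g h
  decide

private def l16d (s y : Bool × Bool × Bool × Bool) : Bool × Bool × Bool × Bool :=
  loop16 s (y.1, y.2.1, y.2.2.1, xor y.2.2.2 (s.1 && s.2.1 && s.2.2.1))

private theorem l16d_eq : ∀ y s d, y = loop16 s d ↔ l16d s y = d := by
  rintro ⟨a, b, c, d⟩ ⟨e, f, g, h⟩ ⟨i, j, k, l⟩
  rw [← l16e_iff, ← l16e_iff, ← Bool.eq_iff_iff]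
  revert a b c d e f g h i j k l
  decide +kernel

private theorem l16cnt (r c : Bool × Bool × Bool × Bool) :
    cnt loop16 r c = l16s fun s =>
      bif l16e (loop16 r (l16d s (loop16 r c))) (loop16 s c) then 1 else 0 := by
  unfold cnt
  rw [card_filter, Fintype.sum_prod_type, ← l16sum]
  refine sum_congr rfl fun s _ => ?_
  simp only [l16d_eq (loop16 r c), ite_and, Fintype.sum_ite_eq, ← l16e_iff (loop16 r _)]
  cases l16e (loop16 r (l16d s (loop16 r c))) (loop16 s c) <;> rfl

theorem ex_sixteen : Ex 16 14 :=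
  ⟨Bool × Bool × Bool × Bool, inferInstance, inferInstance, loop16, rfl,
    ⟨by decide +kernel, by decide +kernel⟩, by
      rintro ⟨a, b, c, d⟩ ⟨e, f, g, h⟩
      rw [l16cnt]
      revert a b c d e f g h
      decide +kernel⟩

theorem ex_pow (k : ℕ) : Ex (2 ^ k) (2 ^ k) := by
  induction k with
  | zero => exact ex_one
  | succ k ih => exact ih.mul ex_two

theorem Ex.toFin {n h : ℕ} (H : Ex n (h + 1)) :
    ∃ L : Fin n → Fin n → Fin n, IsLatin L ∧ IsHomogeneous L h := by
  obtain ⟨α, _, _, L, h1, h2, h3⟩ := H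
  let e : α ≃ Fin n := Fintype.equivFinOfCardEq h1
  have hL : IsLatin fun x y : Fin n => e (L (e.symm x) (e.symm y)) :=
    ⟨fun r => e.bijective.comp ((h2.1 (e.symm r)).comp e.symm.bijective),
      fun c => e.bijective.comp ((h2.2 (e.symm c)).comp e.symm.bijective)⟩
  refine ⟨_, hL, fun r c => ?_⟩
  have h4 := cnt_eq hL r c
  have h5 : cnt (fun x y : Fin n => e (L (e.symm x) (e.symm y))) r c =
      cnt L (e.symm r) (e.symm c) := by
    unfold cnt
    apply Finset.card_bij (fun x _ => (e.symm x.1, e.symm x.2))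
    · intro x hx
      simpa using hx
    · rintro ⟨a, b⟩ _ ⟨a', b'⟩ _ h
      simpa using h
    · rintro ⟨a, b⟩ hx
      exact ⟨(e a, e b), by simpa using hx, by simp⟩
  rw [h5, h3] at h4
  omega

end Pool.Agent.Work.MP_03d2dd_co
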