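import Pool.Agent.Work.MP_03d2dd_co.Bases
import Pool.Agent.Work.MP_03d2dd_co.Assemble
import Mathlib.NumberTheory.Bertrand
import Mathlib.Algebra.Order.Ring.Int

/-! The arithmetic that covers all large admissible orders. -/

namespace Pool.Agent.Work.MP_03d2dd_co

open Finset

/-- Polynomially bounded functions. -/
def PB (f : ℕ → ℕ) : Prop := ∃ C, ∀ j, f j ≤ (j + 2) ^ C

theorem PB.const (a : ℕ) : PB fun _ => a :=
  ⟨a, fun j => (Nat.lt_pow_self (by omega)).le⟩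

theorem PB.id : PB fun j => j := ⟨1, fun j => by simp⟩

theorem PB.mul {f g : ℕ → ℕ} (hf : PB f) (hg : PB g) : PB fun j => f j * g j := by
  obtain ⟨a, ha⟩ := hf
  obtain ⟨b, hb⟩ := hg
  exact ⟨a + b, fun j => by rw [pow_add]; exact Nat.mul_le_mul (ha j) (hb j)⟩

theorem PB.add {f g : ℕ → ℕ} (hf : PB f) (hg : PB g) : PB fun j => f j + g j := by
  obtain ⟨a, ha⟩ := hf
  obtain ⟨b, hb⟩ := hg
  refine ⟨a + b + 1, fun j => ?_⟩
  have h1 : (j + 2) ^ a ≤ (j + 2) ^ (a + b) := Nat.pow_le_pow_right (by omega) (by omega)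
  have h2 : (j + 2) ^ b ≤ (j + 2) ^ (a + b) := Nat.pow_le_pow_right (by omega) (by omega)
  have h3 : (j + 2) ^ (a + b) * 2 ≤ (j + 2) ^ (a + b) * (j + 2) := Nat.mul_le_mul_left _ (by omega)
  have h4 := ha j
  have h5 := hb j
  rw [pow_succ]
  exact (add_le_add h4 h5).trans (by omega)

theorem PB.pow {f : ℕ → ℕ} (hf : PB f) (e : ℕ) : PB fun j => f j ^ e := by
  obtain ⟨a, ha⟩ := hf
  exact ⟨a * e, fun j => by rw [pow_mul]; exact Nat.pow_le_pow_left (ha j) e⟩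

theorem coprime_prog {V a d : ℕ} (hV : 2 ∣ V) (hd : d = 1 ∨ d = 2) :
    Nat.Coprime (V * a + 1) (V * (a + d) + 1) := by
  have h1 : Nat.Coprime (V * a + 1) V := by simp
  have h2 : Nat.Coprime (V * a + 1) d := by
    rcases hd with rfl | rfl
    · simp
    · exact h1.coprime_dvd_right hV
  have : V * (a + d) + 1 = V * d + (V * a + 1) := by ring
  rw [this, Nat.coprime_add_self_right]
  exact h1.mul_right h2

theorem triple {A0 A1 A2 h W : ℕ} (H0 : Ex A0 (h + 1)) (H1 : Ex A1 (h + 1)) (H2 : Ex A2 (h + 1))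
    (hW : 0 < W) : ∃ F : ℕ → ℕ, PB F ∧ ∀ j, ∃ X0 X1 X2 : ℕ, X0 ≤ F j ∧ X1 ≤ F j ∧ X2 ≤ F j ∧
      Ex (A0 * X0) (h * j + 1) ∧ Ex (A1 * X1) (h * j + 1) ∧ Ex (A2 * X2) (h * j + 1) ∧
      Nat.Coprime X0 W ∧ Nat.Coprime X1 W ∧ Nat.Coprime X2 W ∧
      Nat.Coprime X0 X1 ∧ Nat.Coprime X2 X0 ∧ Nat.Coprime X2 X1 := by
  obtain ⟨V, hV⟩ : ∃ V, V = 6 * W := ⟨_, rfl⟩
  obtain ⟨D, hD⟩ : ∃ D, D = 3 * V + 1 := ⟨_, rfl⟩
  refine ⟨fun j => ((j + D) * (8 * (2 * (j + D) + 3)) ^ D) ^ (A0 ^ 4 + A1 ^ 4 + A2 ^ 4),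
    ((PB.id.add (.const D)).mul ((((PB.const 8).mul (((PB.const 2).mul
      (PB.id.add (.const D))).add (.const 3)))).pow D)).pow _, fun j => ?_⟩
  obtain ⟨P, hP⟩ : ∃ P, P = 2 * (j + D) + 3 := ⟨_, rfl⟩
  obtain ⟨a, ha1, ha2⟩ : ∃ a, j ≤ V * a ∧ V * a ≤ j + V := by
    refine ⟨j / V + 1, (Nat.lt_mul_div_succ j (by omega)).le, ?_⟩
    rw [mul_add, mul_one]
    exact Nat.add_le_add_right (Nat.mul_div_le j V) V
  obtain ⟨q0, p0, l0, u0⟩ := Nat.exists_prime_lt_and_le_two_mul P (by omega)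
  obtain ⟨q1, p1, l1, u1⟩ := Nat.exists_prime_lt_and_le_two_mul (2 * P) (by omega)
  obtain ⟨q2, p2, l2, u2⟩ := Nat.exists_prime_lt_and_le_two_mul (4 * P) (by omega)
  have e1 : V * (a + 1) = V * a + V := by ring
  have e2 : V * (a + 2) = V * a + 2 * V := by ring
  have cV : ∀ b, Nat.Coprime (V * b + 1) V := fun b => by simp
  have c6 : ∀ b, Nat.Coprime (V * b + 1) 6 := fun b => (cV b).coprime_dvd_right ⟨W, hV⟩
  have cW : ∀ b, Nat.Coprime (V * b + 1) W := fun b =>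
    (cV b).coprime_dvd_right ⟨6, by rw [hV, mul_comm]⟩
  have cq : ∀ {q x : ℕ}, q.Prime → 0 < x → x < q → Nat.Coprime q x := fun hq h1 h2 =>
    Nat.coprime_of_lt_prime h1.ne' h2 hq
  have bd : ∀ {m q e : ℕ}, m ≤ j + D → q ≤ 8 * P → e ≤ A0 ^ 4 + A1 ^ 4 + A2 ^ 4 →
      (m * q ^ D) ^ e ≤ ((j + D) * (8 * (2 * (j + D) + 3)) ^ D) ^ (A0 ^ 4 + A1 ^ 4 + A2 ^ 4) := by
    intro m q e h1 h2 h3
    rw [← hP]
    refine (Nat.pow_le_pow_left (Nat.mul_le_mul h1 (Nat.pow_le_pow_left h2 D)) e).trans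
      (Nat.pow_le_pow_right ?_ h3)
    exact Nat.mul_pos (by omega) (Nat.pow_pos (by omega))
  have c1 : ∀ {m q x : ℕ} (e : ℕ), Nat.Coprime m x → Nat.Coprime q x →
      Nat.Coprime ((m * q ^ D) ^ e) x := fun e h1 h2 => (h1.mul_left (h2.pow_left D)).pow_left e
  have h2V : 2 ∣ V := ⟨3 * W, by omega⟩
  refine ⟨((V * a + 1) * q0 ^ D) ^ (A0 ^ 4), ((V * (a + 1) + 1) * q1 ^ D) ^ (A1 ^ 4),
    ((V * (a + 2) + 1) * q2 ^ D) ^ (A2 ^ 4), bd (by omega) (by omega) (by omega),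
    bd (by omega) (by omega) (by omega), bd (by omega) (by omega) (by omega),
    H0.scale (c6 _) p0 (by omega) (by omega) (by omega),
    H1.scale (c6 _) p1 (by omega) (by omega) (by omega),
    H2.scale (c6 _) p2 (by omega) (by omega) (by omega),
    c1 _ (cW _) (cq p0 hW (by omega)), c1 _ (cW _) (cq p1 hW (by omega)),
    c1 _ (cW _) (cq p2 hW (by omega)), ?_, ?_, ?_⟩
  · exact c1 _ (c1 _ (coprime_prog h2V (Or.inl rfl)).symm (cq p1 (by omega) (by omega))).symm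
      (c1 _ (cq p0 (by omega) (by omega)).symm (cq p1 (by omega) (by omega))).symm
  · exact c1 _ (c1 _ (coprime_prog h2V (Or.inr rfl)) (cq p0 (by omega) (by omega))).symm
      (c1 _ (cq p2 (by omega) (by omega)).symm (cq p2 (by omega) (by omega)).symm).symm
  · exact c1 _ (c1 _ (coprime_prog (a := a + 1) h2V (Or.inl rfl))
      (cq (x := V * (a + 2) + 1) p1 (by omega) (by omega))).symm
      (c1 _ (cq p2 (by omega) (by omega)).symm (cq p2 (by omega) (by omega)).symm).symm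

theorem Ex.mul_one' {a b n : ℕ} (H : Ex a n) (H' : Ex b 1) : Ex (a * b) n := by
  have := H.mul H'
  rwa [mul_one] at this

theorem cover {n c d ν μ Q R S Z : ℕ} (hν : Ex (2 * ν) 1) (hμ : Ex (2 * μ) 1)
    (HQ : Ex (2 * Q) c) (HR : Ex (d * R) c) (HS : Ex (d * S) c)
    (hd : (d = 1 ∧ n % 2 = 1) ∨ (d = 2 ∧ n % 2 = 0))
    (o : Nat.Coprime (Q * R * ν) 2) (cQR : Nat.Coprime Q R)
    (cS : Nat.Coprime (S * μ ^ 2) (30 * (Q * R * ν)))
    (hZ : 600 * (S * μ ^ 2) * (Q * R * ν) ≤ Z) (hn : 12 * (Z + 1) ^ 3 * Z + Z ≤ n) : Ex n c := by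
  obtain ⟨T, hT⟩ : ∃ T, T = Q * R * ν := ⟨_, rfl⟩
  obtain ⟨s, hs⟩ : ∃ s, s = S * μ ^ 2 := ⟨_, rfl⟩
  have oR : Nat.Coprime R 2 := o.coprime_mul_right.coprime_mul_left
  have Hm : Ex (4 * T) c := by
    have := (HQ.mul_one' hν).mul_one' (ex_odd oR)
    convert this using 1
    rw [hT]
    ring
  have oμ : Nat.Coprime μ 2 :=
    ((cS.coprime_mul_left.coprime_dvd_left (dvd_pow_self μ two_ne_zero)).coprime_mul_right_right
      ).coprime_dvd_right (by norm_num)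
  have Hu : ∀ k, ¬8 ∣ k → Ex (d * s * k) c := by
    intro k hk
    obtain ⟨k', h1, h2⟩ : ∃ k', Nat.Coprime k' 2 ∧ (k = k' ∨ k = 2 * k' ∨ k = 4 * k') := by
      simp only [Nat.coprime_two_right, Nat.odd_iff]
      by_cases a : k % 2 = 1
      · exact ⟨k, a, Or.inl rfl⟩
      by_cases b : k % 4 = 2
      · exact ⟨k / 2, by omega, by omega⟩
      · exact ⟨k / 4, by omega, by omega⟩
    rcases h2 with rfl | rfl | rfl
    · convert HS.mul_one' (ex_odd ((oμ.pow_left 2).mul_left h1)) using 1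
      rw [hs]
      ring
    · convert (HS.mul_one' hμ).mul_one' (ex_odd (oμ.mul_left h1)) using 1
      rw [hs]
      ring
    · convert ((HS.mul_one' hμ).mul_one' hμ).mul_one' (ex_odd h1) using 1
      rw [hs]
      ring
  have d1 : 2 * (2 * Q) ∣ 4 * T := ⟨R * ν, by rw [hT]; ring⟩
  have d2 : 2 * (d * R) ∣ 4 * T := by
    rcases hd with ⟨rfl, -⟩ | ⟨rfl, -⟩
    · exact ⟨2 * Q * ν, by rw [hT]; ring⟩
    · exact ⟨Q * ν, by rw [hT]; ring⟩
  have hg : (2 * Q).gcd (d * R) ∣ d := by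
    have : Nat.Coprime (2 * Q) R := oR.symm.mul_left cQR
    rw [Nat.Coprime.gcd_mul_right_cancel_right d this.symm]
    exact Nat.gcd_dvd_right _ _
  have hQR : 2 * Q * (d * R) ≤ 4 * T := by
    have h1 : 0 < ν := Nat.pos_of_ne_zero (by rintro rfl; simp at o)
    have h2 : Q * R ≤ T := hT ▸ Nat.le_mul_of_pos_right _ h1
    have h3 : 2 * Q * (d * R) = 2 * d * (Q * R) := by ring
    rcases hd with ⟨rfl, -⟩ | ⟨rfl, -⟩ <;> omega
  have hQ : 0 < Q := Nat.pos_of_ne_zero (by rintro rfl; simp at o)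
  have hR : 0 < R := Nat.pos_of_ne_zero (by rintro rfl; simp at o)
  rw [← hT] at o cS hZ
  rw [← hs] at cS hZ
  clear hT hs hν hμ HS oμ oR cQR
  have oT : T % 2 = 1 := by simpa [Nat.odd_iff] using o
  have s0 : 0 < s := Nat.pos_of_ne_zero (by rintro rfl; simp at cS)
  have cS' : Nat.Coprime s (120 * T) := by
    have h1 : Nat.Coprime s 2 := cS.coprime_mul_right_right.coprime_dvd_right (by norm_num)
    have : 120 * T = 2 ^ 2 * (30 * T) := by ring
    rw [this]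
    exact (h1.pow_right 2).mul_right cS
  have hsT : T ≤ s * T := Nat.le_mul_of_pos_left _ s0
  have hZ' : 600 * (s * T) ≤ Z := by rwa [← mul_assoc]
  obtain ⟨y, hy⟩ : ∃ y, n = 4 * T + d * y := by
    have : Z ≤ n := by omega
    rcases hd with ⟨rfl, -⟩ | ⟨rfl, h⟩
    · exact ⟨n - 4 * T, by omega⟩
    · exact ⟨n / 2 - 2 * T, by omega⟩
  obtain ⟨k0, hk0, hk⟩ := Nat.exists_mul_mod_eq_of_coprime y cS' (by omega)
  obtain ⟨k, k1, k2, k3, k4⟩ : ∃ k, ¬8 ∣ k ∧ 120 * T ≤ k ∧ k ≤ 300 * T ∧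
      d * s * k ≡ d * y [MOD 120 * T] := by
    have b0 : d * s * k0 ≡ d * y [MOD 120 * T] := by
      rw [mul_assoc]
      exact Nat.ModEq.mul_left d hk
    by_cases h8 : 8 ∣ k0
    · rcases hd with ⟨rfl, h⟩ | ⟨rfl, h⟩
      · exfalso
        have h1 : s * k0 ≡ y [MOD 2] := Nat.ModEq.of_dvd ⟨60 * T, by ring⟩ hk
        obtain ⟨z, rfl⟩ := h8
        have h2 : s * (8 * z) = 2 * (4 * s * z) := by ring
        rw [h2, Nat.ModEq] at h1
        omega
      · refine ⟨k0 + 180 * T, by omega, by omega, by omega, ?_⟩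
        have : 2 * s * (k0 + 180 * T) = 2 * s * k0 + 120 * T * (3 * s) := by ring
        rw [this]
        exact (Nat.add_mul_mod_self_left _ _ _).trans b0
    · refine ⟨k0 + 120 * T, by omega, by omega, by omega, ?_⟩
      have : d * s * (k0 + 120 * T) = d * s * k0 + 120 * T * (d * s) := by ring
      rw [this]
      exact (Nat.add_mul_mod_self_left _ _ _).trans b0
  have hd2 : 0 < d ∧ d ≤ 2 := by omega
  have uZ : d * s * k ≤ Z := by
    calc d * s * k ≤ 2 * s * (300 * T) := Nat.mul_le_mul (Nat.mul_le_mul_right _ hd2.2) k3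
      _ = 600 * (s * T) := by ring
      _ ≤ Z := hZ'
  have uk : k ≤ d * s * k := Nat.le_mul_of_pos_left _ (Nat.mul_pos hd2.1 s0)
  obtain ⟨u1, u2, hu⟩ := Nat.exists_add_mul_eq_of_gcd_dvd_of_mul_pred_le (2 * Q) (d * R) (d * s * k)
    (hg.trans ⟨s * k, by ring⟩)
    ((Nat.mul_le_mul (Nat.pred_le _) (Nat.pred_le _)).trans (by omega))
  have hu1 : u1 ≤ u1 * (2 * Q) := Nat.le_mul_of_pos_right _ (by omega)
  have hu2 : u2 ≤ u2 * (d * R) := Nat.le_mul_of_pos_right _ (Nat.mul_pos hd2.1 hR)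
  have hZ3 : Z * 12 ≤ 12 * (Z + 1) ^ 3 * Z := by
    have : 1 ≤ (Z + 1) ^ 3 := Nat.one_le_pow _ _ (by omega)
    nlinarith
  obtain ⟨z, hz⟩ : 120 * T ∣ d * y - d * s * k := (Nat.modEq_iff_dvd' (by omega)).1 k4
  have hn' : n = (1 + 30 * z) * (4 * T) + d * s * k := by
    have : (1 + 30 * z) * (4 * T) = 4 * T + 120 * T * z := by ring
    omega
  have hB : 12 * (Z + 1) ^ 3 ≤ 1 + 30 * z := by
    have h1 : 12 * (Z + 1) ^ 3 * (4 * T) ≤ 12 * (Z + 1) ^ 3 * Z := Nat.mul_le_mul_left _ (by omega)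
    exact Nat.le_of_mul_le_mul_right (c := 4 * T) (by omega) (by omega)
  have h3 : (u1 + u2 + 1) ^ 3 ≤ (Z + 1) ^ 3 := Nat.pow_le_pow_left (by omega) 3
  rw [hn', ← hu]
  exact assemble HQ HR Hm (hu ▸ Hu k k1) d1 d2 (by simp) (by omega)

theorem cover_family {d h B0 B1 B2 : ℕ} (H0 : Ex (2 * B0) (h + 1)) (H1 : Ex (d * B1) (h + 1))
    (H2 : Ex (d * B2) (h + 1)) (c0 : Nat.Coprime B0 22) (c1 : Nat.Coprime B1 22)
    (c2 : Nat.Coprime B2 210) (c01 : Nat.Coprime B0 B1) (c20 : Nat.Coprime B2 B0)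
    (c21 : Nat.Coprime B2 B1) : ∃ C, ∀ j n, (j + 2) ^ C ≤ n →
      ((d = 1 ∧ n % 2 = 1) ∨ (d = 2 ∧ n % 2 = 0)) → Ex n (h * j + 1) := by
  have p0 : 0 < B0 := Nat.pos_of_ne_zero (by rintro rfl; simp at c0)
  have p1 : 0 < B1 := Nat.pos_of_ne_zero (by rintro rfl; simp at c1)
  have p2 : 0 < B2 := Nat.pos_of_ne_zero (by rintro rfl; simp at c2)
  obtain ⟨F, hF, H⟩ := triple H0 H1 H2 (W := 2310 * (B0 * B1 * B2)) (by positivity)
  obtain ⟨ν, hν, a1, a2⟩ : ∃ ν, Ex (2 * ν) 1 ∧ Nat.Coprime ν 22 ∧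
      ∀ x, Nat.Coprime x 7 → Nat.Coprime x ν :=
    ⟨7 ^ 16, ex_zero (by norm_num) (by norm_num), Nat.Coprime.pow_left _ (by norm_num),
      fun x hx => hx.pow_right _⟩
  obtain ⟨μ, hμ, a3⟩ : ∃ μ, Ex (2 * μ) 1 ∧ ∀ x, Nat.Coprime x 11 → Nat.Coprime μ x :=
    ⟨11 ^ 16, ex_zero (by norm_num) (by norm_num), fun x hx => hx.symm.pow_left _⟩
  have hZ : PB fun j => 600 * (B2 * F j * μ ^ 2) * (B0 * F j * (B1 * F j) * ν) :=
    ((PB.const _).mul (((PB.const _).mul hF).mul (.const _))).mul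
      ((((PB.const _).mul hF).mul ((PB.const _).mul hF)).mul (.const _))
  obtain ⟨C, hC⟩ := ((((PB.const 12).mul ((hZ.add (.const 1)).pow 3)).mul hZ).add hZ)
  refine ⟨C, fun j n hn hd => ?_⟩
  obtain ⟨X0, X1, X2, b0, b1, b2, e0, e1, e2, w0, w1, w2, x01, x20, x21⟩ := H j
  have sp : ∀ {X}, Nat.Coprime X (2310 * (B0 * B1 * B2)) → Nat.Coprime X 22 ∧ Nat.Coprime X 210 ∧
      Nat.Coprime X B0 ∧ Nat.Coprime X B1 ∧ Nat.Coprime X B2 := fun w =>
    ⟨w.coprime_mul_right_right.coprime_dvd_right (by norm_num),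
      w.coprime_mul_right_right.coprime_dvd_right (by norm_num),
      w.coprime_mul_left_right.coprime_mul_right_right.coprime_mul_right_right,
      w.coprime_mul_left_right.coprime_mul_right_right.coprime_mul_left_right,
      w.coprime_mul_left_right.coprime_mul_left_right⟩
  obtain ⟨f0, -, -, f01, f02⟩ := sp w0
  obtain ⟨f1, -, f10, -, f12⟩ := sp w1
  obtain ⟨-, f2, f20, f21, -⟩ := sp w2
  have t22 : Nat.Coprime (B0 * X0 * (B1 * X1) * ν) 22 :=
    ((c0.mul_left f0).mul_left (c1.mul_left f1)).mul_left a1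
  have s210 : Nat.Coprime (B2 * X2) 210 := c2.mul_left f2
  rw [mul_assoc] at e0 e1 e2
  refine cover hν hμ e0 e1 e2 hd (t22.coprime_dvd_right (by norm_num))
    ((c01.mul_left f01).mul_right (f10.symm.mul_left x01)) ?_ ?_ ((hC j).trans hn)
  · refine Nat.Coprime.mul_left ?_ (Nat.Coprime.pow_left 2 (a3 _ ?_))
    · refine (s210.coprime_dvd_right (by norm_num)).mul_right
        (Nat.Coprime.mul_right (Nat.Coprime.mul_right ?_ ?_)
          (a2 _ (s210.coprime_dvd_right (by norm_num))))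
      · exact (c20.mul_left f20).mul_right (f02.symm.mul_left x20)
      · exact (c21.mul_left f21).mul_right (f12.symm.mul_left x21)
    · exact Nat.Coprime.mul_left (by norm_num) (t22.coprime_dvd_right (by norm_num))
  · gcongr

theorem card_half {β : Type} [DecidableEq β] (S : Finset β) (σ : β → β) (p : β → Prop)
    [DecidablePred p] (h1 : ∀ x ∈ S, σ x ∈ S) (h2 : ∀ x, σ (σ x) = x)
    (h3 : ∀ x ∈ S, p (σ x) ↔ ¬p x) : S.card = 2 * (S.filter p).card := by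
  rw [← card_filter_add_card_filter_not (s := S) p, two_mul]
  congr 1
  refine card_bij (fun x _ => σ x) ?_ ?_ ?_
  · intro x hx
    rw [mem_filter] at hx ⊢
    exact ⟨h1 x hx.1, (h3 x hx.1).2 hx.2⟩
  · intro x _ y _ e
    rw [← h2 x, e, h2]
  · intro x hx
    rw [mem_filter] at hx
    refine ⟨σ x, mem_filter.2 ⟨h1 x hx.1, ?_⟩, h2 x⟩
    rw [h3 x hx.1, not_not]
    exact hx.2

theorem four_dvd {n h : ℕ} {L : Fin n → Fin n → Fin n} (H : IsHomogeneous L h) :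
    4 ∣ n * n * h := by
  let S : Finset ((Fin n × Fin n) × Fin n × Fin n) := univ.filter fun x =>
    x.2.1 ≠ x.1.1 ∧ x.2.2 ≠ x.1.2 ∧ L x.1.1 x.1.2 = L x.2.1 x.2.2 ∧ L x.1.1 x.2.2 = L x.2.1 x.1.2
  have h1 : S.card = n * n * h := by
    rw [card_filter, Fintype.sum_prod_type,
      sum_congr rfl (g := fun _ => h) fun x _ => by rw [← H x.1 x.2, intercalates, card_filter]]
    simp
  have h2 := card_half S (fun x => ((x.2.1, x.1.2), x.1.1, x.2.2)) (fun x => x.1.1 < x.2.1)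
    (fun x hx => by
      simp only [S, mem_filter, mem_univ, true_and] at hx ⊢
      exact ⟨hx.1.symm, hx.2.1, hx.2.2.2.symm, hx.2.2.1.symm⟩) (fun _ => rfl)
    (fun x hx => by
      simp only [S, mem_filter, mem_univ, true_and] at hx
      exact ⟨fun a => not_lt.2 a.le, fun a => lt_of_le_of_ne (not_lt.1 a) hx.1⟩)
  have h3 := card_half (S.filter fun x => x.1.1 < x.2.1) (fun x => ((x.1.1, x.2.2), x.2.1, x.1.2))
    (fun x => x.1.2 < x.2.2)
    (fun x hx => by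
      simp only [S, mem_filter, mem_univ, true_and] at hx ⊢
      exact ⟨⟨hx.1.1, hx.1.2.1.symm, hx.1.2.2.2, hx.1.2.2.1⟩, hx.2⟩) (fun _ => rfl)
    (fun x hx => by
      simp only [S, mem_filter, mem_univ, true_and] at hx
      exact ⟨fun a => not_lt.2 a.le, fun a => lt_of_le_of_ne (not_lt.1 a) hx.1.2.1⟩)
  omega

theorem spectrum : ∃ C : ℕ, ∀ h n : ℕ, (h + 2) ^ C ≤ n →
    ((∃ L : Fin n → Fin n → Fin n, IsLatin L ∧ IsHomogeneous L h) ↔ (Even n ∨ 4 ∣ h)) := by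
  obtain ⟨B0, B1, B2, H0, H1, H2, c0, c1, c2, c01, c20, c21⟩ := ex_bases
  obtain ⟨C1, h1⟩ := cover_family (d := 1) H0 (by rwa [one_mul]) (by rwa [one_mul]) c0 c1 c2 c01
    c20 c21
  obtain ⟨C2, h2⟩ := cover_family (d := 2) (h := 1) (B0 := 1) (B1 := 1) (B2 := 1) ex_two ex_two
    ex_two (by norm_num) (by norm_num) (by norm_num) (by norm_num) (by norm_num) (by norm_num)
  refine ⟨C1 + C2, fun h n hn => ⟨?_, fun H => ?_⟩⟩
  · rintro ⟨L, -, hL⟩
    rcases Nat.even_or_odd n with a | a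
    · exact Or.inl a
    · have c : Nat.Coprime (2 ^ 2) (n * n) :=
        Nat.Coprime.pow_left 2 (Nat.coprime_two_left.2 (a.mul a))
      exact Or.inr (c.dvd_of_dvd_mul_left (four_dvd hL))
  · apply Ex.toFin
    rcases Nat.mod_two_eq_zero_or_one n with a | a
    · have := h2 h n ((Nat.pow_le_pow_right (by omega) (by omega)).trans hn) (Or.inr ⟨rfl, a⟩)
      rwa [one_mul] at this
    · obtain ⟨j, rfl⟩ := H.resolve_left (by rw [Nat.even_iff]; omega)
      exact h1 j n (((Nat.pow_le_pow_left (by omega) _).trans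
        (Nat.pow_le_pow_right (by omega) (by omega))).trans hn) (Or.inl ⟨rfl, a⟩)

end Pool.Agent.Work.MP_03d2dd_co
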