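import Pool.Agent.Work.MP_03d2dd_co.Main
import Mathlib.Tactic.LinearCombination
import Mathlib.Data.Fintype.BigOperators

/-! A Wilson-type construction preserving the number of intercalates through a cell. -/

namespace Pool.Agent.Work.MP_03d2dd_co

open Finset

theorem four_blocks {R : Type} [CommRing R] (k : ∀ x y : R, 60 * x = 60 * y → x = y)
    {p p' q q' s s' : Prop} {a1 b1 a2 b2 a3 b3 a4 b4 : R}
    (n1 : ¬(p ∧ q)) (n2 : ¬(p ∧ s)) (n3 : ¬(q ∧ s)) (n4 : ¬(p ∧ q')) (n5 : ¬(p ∧ s'))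
    (n6 : ¬(q' ∧ s')) (n7 : ¬(p' ∧ q)) (n8 : ¬(p' ∧ s')) (n9 : ¬(q ∧ s')) (n10 : ¬(p' ∧ q'))
    (n11 : ¬(p' ∧ s)) (n12 : ¬(q' ∧ s))
    (e1 : (p ∧ a1 + 3 * b1 = a2 + 3 * b2) ∨ a1 = a2)
    (e2 : (p' ∧ a3 + 3 * b3 = a4 + 3 * b4) ∨ a3 = a4)
    (e3 : (q ∧ a1 + 3 * b1 = a3 + 3 * b3) ∨ b1 = b3)
    (e4 : (q' ∧ a2 + 3 * b2 = a4 + 3 * b4) ∨ b2 = b4)
    (e5 : (s ∧ a1 + 3 * b1 = a4 + 3 * b4) ∨ a1 + b1 = a4 + b4)
    (e6 : (s' ∧ a2 + 3 * b2 = a3 + 3 * b3) ∨ a2 + b2 = a3 + b3) : a1 = a4 ∧ b1 = b4 := by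
  by_cases hp : p ∨ p'
  · replace e3 := e3.resolve_left fun g => hp.elim (n1 ⟨·, g.1⟩) (n7 ⟨·, g.1⟩)
    replace e4 := e4.resolve_left fun g => hp.elim (n4 ⟨·, g.1⟩) (n10 ⟨·, g.1⟩)
    replace e5 := e5.resolve_left fun g => hp.elim (n2 ⟨·, g.1⟩) (n11 ⟨·, g.1⟩)
    replace e6 := e6.resolve_left fun g => hp.elim (n5 ⟨·, g.1⟩) (n8 ⟨·, g.1⟩)
    rcases e1 with ⟨-, e1⟩ | e1 <;> rcases e2 with ⟨-, e2⟩ | e2
    · exact ⟨k _ _ (by
        linear_combination -15 * e1 - 15 * e2 - 30 * e3 - 30 * e4 + 75 * e5 - 15 * e6), k _ _ (by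
        linear_combination 15 * e1 + 15 * e2 + 30 * e3 + 30 * e4 - 15 * e5 + 15 * e6)⟩
    · exact ⟨k _ _ (by
        linear_combination -60 * e1 - 60 * e2 + 60 * e3 - 120 * e4 + 120 * e5 - 60 * e6), k _ _ (by
        linear_combination 60 * e1 + 60 * e2 - 60 * e3 + 120 * e4 - 60 * e5 + 60 * e6)⟩
    · exact ⟨k _ _ (by
        linear_combination -60 * e1 - 60 * e2 - 120 * e3 + 60 * e4 + 120 * e5 - 60 * e6), k _ _ (by
        linear_combination 60 * e1 + 60 * e2 + 120 * e3 - 60 * e4 - 60 * e5 + 60 * e6)⟩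
    · exact ⟨k _ _ (by
        linear_combination 30 * e1 + 30 * e2 - 30 * e3 - 30 * e4 + 30 * e5 + 30 * e6), k _ _ (by
        linear_combination -30 * e1 - 30 * e2 + 30 * e3 + 30 * e4 + 30 * e5 - 30 * e6)⟩
  replace e1 := e1.resolve_left fun g => hp (Or.inl g.1)
  replace e2 := e2.resolve_left fun g => hp (Or.inr g.1)
  by_cases hq : q ∨ q'
  · replace e5 := e5.resolve_left fun g => hq.elim (n3 ⟨·, g.1⟩) (n12 ⟨·, g.1⟩)
    replace e6 := e6.resolve_left fun g => hq.elim (n9 ⟨·, g.1⟩) (n6 ⟨·, g.1⟩)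
    rcases e3 with ⟨-, e3⟩ | e3 <;> rcases e4 with ⟨-, e4⟩ | e4
    · exact ⟨k _ _ (by
        linear_combination 30 * e1 + 30 * e2 - 15 * e3 - 15 * e4 + 45 * e5 + 45 * e6), k _ _ (by
        linear_combination -30 * e1 - 30 * e2 + 15 * e3 + 15 * e4 + 15 * e5 - 45 * e6)⟩
    · exact ⟨k _ _ (by
        linear_combination 36 * e1 + 24 * e2 - 12 * e3 - 36 * e4 + 36 * e5 + 36 * e6), k _ _ (by
        linear_combination -36 * e1 - 24 * e2 + 12 * e3 + 36 * e4 + 24 * e5 - 36 * e6)⟩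
    · exact ⟨k _ _ (by
        linear_combination 24 * e1 + 36 * e2 - 36 * e3 - 12 * e4 + 36 * e5 + 36 * e6), k _ _ (by
        linear_combination -24 * e1 - 36 * e2 + 36 * e3 + 12 * e4 + 24 * e5 - 36 * e6)⟩
    · exact ⟨k _ _ (by
        linear_combination 30 * e1 + 30 * e2 - 30 * e3 - 30 * e4 + 30 * e5 + 30 * e6), k _ _ (by
        linear_combination -30 * e1 - 30 * e2 + 30 * e3 + 30 * e4 + 30 * e5 - 30 * e6)⟩
  replace e3 := e3.resolve_left fun g => hq (Or.inl g.1)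
  replace e4 := e4.resolve_left fun g => hq (Or.inr g.1)
  rcases e5 with ⟨-, e5⟩ | e5 <;> rcases e6 with ⟨-, e6⟩ | e6
  · exact ⟨k _ _ (by
      linear_combination 30 * e1 + 30 * e2 - 90 * e3 - 90 * e4 + 30 * e5 + 30 * e6), k _ _ (by
      linear_combination -10 * e1 - 10 * e2 + 30 * e3 + 30 * e4 + 10 * e5 - 10 * e6)⟩
  · exact ⟨k _ _ (by
      linear_combination 45 * e1 + 45 * e2 - 45 * e3 - 45 * e4 + 15 * e5 + 45 * e6), k _ _ (by
      linear_combination -15 * e1 - 15 * e2 + 15 * e3 + 15 * e4 + 15 * e5 - 15 * e6)⟩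
  · exact ⟨k _ _ (by
      linear_combination 15 * e1 + 15 * e2 - 45 * e3 - 45 * e4 + 45 * e5 + 15 * e6), k _ _ (by
      linear_combination -15 * e1 - 15 * e2 + 45 * e3 + 45 * e4 + 15 * e5 - 15 * e6)⟩
  · exact ⟨k _ _ (by
      linear_combination 30 * e1 + 30 * e2 - 30 * e3 - 30 * e4 + 30 * e5 + 30 * e6), k _ _ (by
      linear_combination -30 * e1 - 30 * e2 + 30 * e3 + 30 * e4 + 30 * e5 - 30 * e6)⟩

/-- The special points form a subsquare that no outside intercalate meets. -/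
structure Hole {β : Type} (L : β → β → β) (sp : β → Prop) : Prop where
  c1 : ∀ u v, sp u → sp v → sp (L u v)
  c2 : ∀ u v, sp u → sp (L u v) → sp v
  c3 : ∀ u v, sp v → sp (L u v) → sp u
  tri : ∀ u u' v v', sp u → sp v → L u v' = L u' v → sp (L u' v') → sp u'

theorem Hole.all {β : Type} {L : β → β → β} {sp : β → Prop} (H : Hole L sp) {u u' v v' : β}
    (e1 : L u v = L u' v') (e2 : L u v' = L u' v) (hu : sp u) (hv : sp v) : sp u' ∧ sp v' := by
  have h1 := H.c1 _ _ hu hv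
  rw [e1] at h1
  have h2 := H.tri _ _ _ _ hu hv e2 h1
  exact ⟨h2, H.c2 _ _ h2 h1⟩

theorem Hole.out {β : Type} {L : β → β → β} {sp : β → Prop} (H : Hole L sp) {u u' v v' : β}
    (e1 : L u v = L u' v') (e2 : L u v' = L u' v) (h : ¬(sp u ∧ sp v)) :
    ¬(sp u ∧ sp v') ∧ ¬(sp u' ∧ sp v) ∧ ¬(sp u' ∧ sp v') :=
  ⟨fun g => h ⟨g.1, (H.all e2 e1 g.1 g.2).2⟩,
    fun g => h ⟨(H.all e2.symm e1.symm g.1 g.2).1, g.2⟩,
    fun g => h (H.all e1.symm e2.symm g.1 g.2)⟩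

section

variable {R Ω : Type} {G : R → Type}

/-- The copy of a local point set at a given place. -/
def emb (x z : R) : Ω ⊕ G x → (R × Ω) ⊕ (Σ x, G x) :=
  Sum.map (fun ω => (z, ω)) (fun g => ⟨x, g⟩)

/-- The place of a point. -/
def loc : (R × Ω) ⊕ (Σ x, G x) → R := Sum.elim Prod.fst Sigma.fst

theorem emb_inj {x z : R} {u v : Ω ⊕ G x} (h : emb x z u = emb x z v) : u = v := by
  cases u <;> cases v <;> simp_all [emb]

theorem emb_sp {x z : R} (u : Ω ⊕ G x) : (emb x z u).isRight = u.isRight := by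
  cases u <;> rfl

theorem emb_eq {x z x' z' : R} {u : Ω ⊕ G x} {u' : Ω ⊕ G x'} (h : emb x z u = emb x' z' u') :
    ((emb x z u).isRight = true → x = x') ∧ (¬(emb x z u).isRight = true → z = z') := by
  cases u <;> cases u' <;> simp only [emb, Sum.map_inl, Sum.map_inr, Sum.inl.injEq, Prod.mk.injEq,
    Sum.inr.injEq, Sigma.mk.injEq, reduceCtorEq] at h <;> simp [emb, h.1]

theorem emb_or {x z x' z' : R} {u : Ω ⊕ G x} {u' : Ω ⊕ G x'} {p : (R × Ω) ⊕ (Σ x, G x)}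
    (h : p = emb x z u) (h' : p = emb x' z' u') : (p.isRight = true ∧ x = x') ∨ z = z' := by
  subst h
  by_cases g : (emb x z u).isRight = true
  · exact Or.inl ⟨g, (emb_eq h').1 g⟩
  · exact Or.inr ((emb_eq h').2 g)

theorem emb_ne {x z : R} {u : Ω ⊕ G x} (h : (emb x z u).isRight = true) : Nonempty (G x) := by
  cases u with
  | inl a => simp [emb] at h
  | inr g => exact ⟨g⟩

variable [CommRing R]

/-- The global square. -/
def glob (ι : R) (M : ∀ x, Ω ⊕ G x → Ω ⊕ G x → Ω ⊕ G x)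
    (N : (Σ x, G x) → (Σ x, G x) → Σ x, G x) :
    (R × Ω) ⊕ (Σ x, G x) → (R × Ω) ⊕ (Σ x, G x) → (R × Ω) ⊕ (Σ x, G x)
  | .inl r, .inl c => emb (r.1 + 3 * c.1) (r.1 + c.1) (M (r.1 + 3 * c.1) (.inl r.2) (.inl c.2))
  | .inr s, .inl c => emb s.1 (s.1 - 3 * c.1 + c.1) (M s.1 (.inr s.2) (.inl c.2))
  | .inl r, .inr s => emb s.1 (r.1 + ι * (s.1 - r.1)) (M s.1 (.inl r.2) (.inr s.2))
  | .inr s, .inr s' => .inr (N s s')

variable {ι : R} {M : ∀ x, Ω ⊕ G x → Ω ⊕ G x → Ω ⊕ G x} {N : (Σ x, G x) → (Σ x, G x) → Σ x, G x}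

theorem glob_emb (hι : 3 * ι = 1) {x a b : R} (hx : a + 3 * b = x) {u v : Ω ⊕ G x}
    (h : ¬(u.isRight = true ∧ v.isRight = true)) :
    glob ι M N (emb x a u) (emb x b v) = emb x (a + b) (M x u v) := by
  cases u with
  | inl ω =>
    cases v with
    | inl ω' =>
      subst hx
      rfl
    | inr g =>
      have : a + ι * (x - a) = a + b := by linear_combination (-ι) * hx + b * hι
      simp only [emb, Sum.map_inl, Sum.map_inr, glob, this]
  | inr g =>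
    cases v with
    | inl ω' =>
      have : x - 3 * b + b = a + b := by linear_combination -hx
      simp only [emb, Sum.map_inl, Sum.map_inr, glob, this]
    | inr g' => simp at h

theorem cell_ex (hι : 3 * ι = 1) (M : ∀ x, Ω ⊕ G x → Ω ⊕ G x → Ω ⊕ G x)
    (N : (Σ x, G x) → (Σ x, G x) → Σ x, G x) {r c : (R × Ω) ⊕ (Σ x, G x)}
    (h : ¬(r.isRight = true ∧ c.isRight = true)) :
    ∃ (x a b : R) (u v : Ω ⊕ G x), a + 3 * b = x ∧ r = emb x a u ∧ c = emb x b v ∧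
      glob ι M N r c = emb x (a + b) (M x u v) := by
  have : ∃ (x a b : R) (u v : Ω ⊕ G x), a + 3 * b = x ∧ r = emb x a u ∧ c = emb x b v := by
    rcases r with ⟨a, ω⟩ | ⟨x, g⟩ <;> rcases c with ⟨b, ω'⟩ | ⟨y, g'⟩
    · exact ⟨_, a, b, .inl ω, .inl ω', rfl, rfl, rfl⟩
    · exact ⟨y, a, ι * (y - a), .inl ω, .inr g', by linear_combination (y - a) * hι, rfl, rfl⟩
    · exact ⟨x, x - 3 * b, b, .inr g, .inl ω', by ring, rfl, rfl⟩
    · simp at h
  obtain ⟨x, a, b, u, v, h1, rfl, rfl⟩ := this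
  exact ⟨x, a, b, u, v, h1, rfl, rfl, glob_emb hι h1 (by rwa [emb_sp, emb_sp] at h)⟩

theorem glob_hole (k : ∀ x y : R, 60 * x = 60 * y → x = y) (hι : 3 * ι = 1)
    (hU : ∀ x y z, Nonempty (G x) → Nonempty (G y) → Nonempty (G z) → y + 2 * z = 3 * x →
      x = y ∧ y = z)
    (hM : ∀ x, Hole (M x) (·.isRight = true)) : Hole (glob ι M N) (·.isRight = true) := by
  have c2 : ∀ r c, r.isRight = true → (glob ι M N r c).isRight = true → c.isRight = true := by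
    intro r c h1 h2
    by_contra h3
    obtain ⟨x, a, b, u, v, -, rfl, rfl, e⟩ := cell_ex hι M N (r := r) (c := c) fun h => h3 h.2
    rw [e] at h2
    rw [emb_sp] at h1 h2 h3
    exact h3 ((hM x).c2 _ _ h1 h2)
  have c3 : ∀ r c, c.isRight = true → (glob ι M N r c).isRight = true → r.isRight = true := by
    intro r c h1 h2
    by_contra h3
    obtain ⟨x, a, b, u, v, -, rfl, rfl, e⟩ := cell_ex hι M N (r := r) (c := c) fun h => h3 h.1
    rw [e] at h2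
    rw [emb_sp] at h1 h2 h3
    exact h3 ((hM x).c3 _ _ h1 h2)
  refine ⟨?_, c2, c3, ?_⟩
  · rintro (r | r) (c | c) h1 h2
    · simp at h1
    · simp at h1
    · simp at h2
    · rfl
  · intro r r' c c' h1 h2 e h3
    by_contra h4
    have h5 : ¬c'.isRight = true := fun h => h4 (c3 _ _ h h3)
    have h6 : ¬(glob ι M N r c').isRight = true := fun h => h5 (c2 _ _ h1 h)
    obtain ⟨x1, a1, b1, u1, v1, g1, rfl, rfl, e1⟩ :=
      cell_ex hι M N (r := r) (c := c') fun h => h5 h.2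
    obtain ⟨x2, a2, b2, u2, v2, g2, rfl, rfl, e2⟩ :=
      cell_ex hι M N (r := r') (c := c) fun h => h4 h.1
    obtain ⟨x3, a3, b3, u3, v3, g3, f1, f2, e3⟩ :=
      cell_ex hι M N (r := emb x2 a2 u2) (c := emb x1 b1 v1) fun h => h4 h.1
    rw [e1, e2] at e
    rw [e1] at h6
    rw [e3] at h3
    have q1 := (emb_eq e).2 h6
    have q2 := (emb_eq f1).2 h4
    have q3 := (emb_eq f2).2 h5
    obtain ⟨rfl, rfl⟩ := hU x1 x2 x3 (emb_ne h1) (emb_ne h2) (emb_ne h3)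
      (by linear_combination 3 * g1 - g2 - 2 * g3 - 3 * q1 - 2 * q2 - 6 * q3)
    subst q2 q3
    obtain rfl : a1 = a2 := by linear_combination g1 - g3
    obtain rfl : b1 = b2 := k _ _ (by linear_combination 20 * g1 - 20 * g2)
    obtain rfl := emb_inj f1
    obtain rfl := emb_inj f2
    rw [emb_sp] at h1 h2 h3 h4
    exact h4 ((hM x1).tri _ _ _ _ h1 h2 (emb_inj e) h3)

variable [Fintype R] [DecidableEq R] [Fintype Ω] [DecidableEq Ω] [∀ x, Fintype (G x)]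
  [∀ x, DecidableEq (G x)]

omit [DecidableEq R] [DecidableEq Ω] [∀ x, DecidableEq (G x)] in
theorem glob_latin (k : ∀ x y : R, 60 * x = 60 * y → x = y) (hι : 3 * ι = 1)
    (H : Hole (glob ι M N) (·.isRight = true)) (hM : ∀ x, IsLatin (M x)) (hN : IsLatin N) :
    IsLatin (glob ι M N) := by
  refine ⟨fun r => Finite.injective_iff_bijective.1 fun c c' e => ?_,
    fun c => Finite.injective_iff_bijective.1 fun r r' e => ?_⟩
  · by_cases h : r.isRight = true ∧ c.isRight = true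
    · have h' : c'.isRight = true := H.c2 _ _ h.1 (e ▸ H.c1 _ _ h.1 h.2)
      obtain ⟨r, rfl⟩ := Sum.isRight_iff.1 h.1
      obtain ⟨c, rfl⟩ := Sum.isRight_iff.1 h.2
      obtain ⟨c', rfl⟩ := Sum.isRight_iff.1 h'
      rw [(hN.1 r).1 (Sum.inr.inj e)]
    have h' : ¬(r.isRight = true ∧ c'.isRight = true) := fun g =>
      h ⟨g.1, H.c2 _ _ g.1 (e ▸ H.c1 _ _ g.1 g.2)⟩
    have h'' : ¬(r.isRight = true ∧ (glob ι M N r c).isRight = true) := fun g =>
      h ⟨g.1, H.c2 _ _ g.1 g.2⟩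
    obtain ⟨x, a, b, u, v, g1, f1, rfl, e1⟩ := cell_ex hι M N h
    obtain ⟨x', a', b', u', v', g2, f2, rfl, e2⟩ := cell_ex hι M N h'
    have key : a = a' ∧ b = b' := by
      rcases emb_or f1 f2 with ⟨p1, q1⟩ | q1 <;> rcases emb_or e1 (e.trans e2) with ⟨p2, q2⟩ | q2
      · exact absurd ⟨p1, p2⟩ h''
      · exact ⟨k _ _ (by linear_combination 90 * q2 - 30 * g1 + 30 * g2 - 30 * q1),
          k _ _ (by linear_combination 30 * g1 - 30 * g2 + 30 * q1 - 30 * q2)⟩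
      · exact ⟨q1, k _ _ (by linear_combination 20 * g1 - 20 * g2 + 20 * q2 - 20 * q1)⟩
      · exact ⟨q1, by linear_combination q2 - q1⟩
    obtain ⟨rfl, rfl⟩ := key
    obtain rfl : x = x' := g1.symm.trans g2
    obtain rfl := emb_inj (f1.symm.trans f2)
    rw [((hM x).1 u).1 (emb_inj (e1.symm.trans (e.trans e2)))]
  · by_cases h : r.isRight = true ∧ c.isRight = true
    · have h' : r'.isRight = true := H.c3 _ _ h.2 (e ▸ H.c1 _ _ h.1 h.2)
      obtain ⟨r, rfl⟩ := Sum.isRight_iff.1 h.1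
      obtain ⟨c, rfl⟩ := Sum.isRight_iff.1 h.2
      obtain ⟨r', rfl⟩ := Sum.isRight_iff.1 h'
      rw [(hN.2 c).1 (Sum.inr.inj e)]
    have h' : ¬(r'.isRight = true ∧ c.isRight = true) := fun g =>
      h ⟨H.c3 _ _ g.2 (e ▸ H.c1 _ _ g.1 g.2), g.2⟩
    have h'' : ¬(c.isRight = true ∧ (glob ι M N r c).isRight = true) := fun g =>
      h ⟨H.c3 _ _ g.1 g.2, g.1⟩
    obtain ⟨x, a, b, u, v, g1, rfl, f1, e1⟩ := cell_ex hι M N h
    obtain ⟨x', a', b', u', v', g2, rfl, f2, e2⟩ := cell_ex hι M N h'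
    have key : a = a' ∧ b = b' := by
      rcases emb_or f1 f2 with ⟨p1, q1⟩ | q1 <;> rcases emb_or e1 (e.trans e2) with ⟨p2, q2⟩ | q2
      · exact absurd ⟨p1, p2⟩ h''
      · exact ⟨k _ _ (by linear_combination 90 * q2 - 30 * g1 + 30 * g2 - 30 * q1),
          k _ _ (by linear_combination 30 * g1 - 30 * g2 + 30 * q1 - 30 * q2)⟩
      · exact ⟨by linear_combination g1 - g2 + q2 - 3 * q1, q1⟩
      · exact ⟨by linear_combination q2 - q1, q1⟩
    obtain ⟨rfl, rfl⟩ := key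
    obtain rfl : x = x' := g1.symm.trans g2
    obtain rfl := emb_inj (f1.symm.trans f2)
    rw [((hM x).2 v).1 (emb_inj (e1.symm.trans (e.trans e2)))]

theorem glob_cnt (k : ∀ x y : R, 60 * x = 60 * y → x = y) (hι : 3 * ι = 1)
    (H : Hole (glob ι M N) (·.isRight = true)) (hM : ∀ x, Hole (M x) (·.isRight = true)) {n : ℕ}
    (cM : ∀ x u v, cnt (M x) u v = n) (cN : ∀ s s', cnt N s s' = n)
    (r c : (R × Ω) ⊕ (Σ x, G x)) : cnt (glob ι M N) r c = n := by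
  by_cases h : r.isRight = true ∧ c.isRight = true
  · obtain ⟨r, rfl⟩ := Sum.isRight_iff.1 h.1
    obtain ⟨c, rfl⟩ := Sum.isRight_iff.1 h.2
    rw [← cN r c]
    unfold cnt
    symm
    refine card_bij (fun p _ => (.inr p.1, .inr p.2)) ?_ ?_ ?_
    · intro p hp
      simpa [glob] using hp
    · rintro ⟨a, b⟩ _ ⟨a', b'⟩ _ e
      simpa using e
    · rintro ⟨r', c'⟩ hp
      simp only [mem_filter, mem_univ, true_and] at hp
      obtain ⟨h1, h2⟩ := H.all hp.1 hp.2 rfl rfl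
      obtain ⟨r', rfl⟩ := Sum.isRight_iff.1 h1
      obtain ⟨c', rfl⟩ := Sum.isRight_iff.1 h2
      exact ⟨(r', c'), by simpa [glob] using hp, rfl⟩
  obtain ⟨x, a, b, u, v, g1, f1, f2, e1⟩ := cell_ex hι M N h
  have h0 : ¬(u.isRight = true ∧ v.isRight = true) := by rwa [f1, f2, emb_sp, emb_sp] at h
  rw [← cM x u v]
  unfold cnt
  symm
  refine card_bij (fun p _ => (emb x a p.1, emb x b p.2)) ?_ ?_ ?_
  · rintro ⟨u', v'⟩ hp
    simp only [mem_filter, mem_univ, true_and] at hp ⊢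
    obtain ⟨n1, n2, n3⟩ := (hM x).out hp.1 hp.2 h0
    rw [e1, f1, f2, glob_emb hι g1 n1, glob_emb hι g1 n2, glob_emb hι g1 n3, hp.1, hp.2]
    exact ⟨rfl, rfl⟩
  · rintro ⟨u', v'⟩ _ ⟨u'', v''⟩ _ e
    simp only [Prod.mk.injEq] at e ⊢
    exact ⟨emb_inj e.1, emb_inj e.2⟩
  · rintro ⟨r', c'⟩ hp
    simp only [mem_filter, mem_univ, true_and] at hp
    obtain ⟨p1, p2⟩ := hp
    obtain ⟨n1, n2, n3⟩ := H.out p1 p2 h
    obtain ⟨x2, a2, b2, u2, v2, g2, f3, f4, e2⟩ := cell_ex hι M N n1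
    obtain ⟨x3, a3, b3, u3, v3, g3, f5, f6, e3⟩ := cell_ex hι M N n2
    obtain ⟨x4, a4, b4, u4, v4, g4, f7, f8, e4⟩ := cell_ex hι M N n3
    subst g2 g3
    have key : a = a4 ∧ b = b4 := by
      subst g1 g4
      exact four_blocks k (p := r.isRight = true) (p' := r'.isRight = true)
        (q := c.isRight = true) (q' := c'.isRight = true)
        (s := (glob ι M N r c).isRight = true) (s' := (glob ι M N r c').isRight = true)
        h (fun g => h ⟨g.1, H.c2 _ _ g.1 g.2⟩) (fun g => h ⟨H.c3 _ _ g.1 g.2, g.1⟩)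
        n1 (fun g => n1 ⟨g.1, H.c2 _ _ g.1 g.2⟩) (fun g => n1 ⟨H.c3 _ _ g.1 g.2, g.1⟩)
        n2 (fun g => n2 ⟨g.1, H.c2 _ _ g.1 (p2 ▸ g.2)⟩) (fun g => n2 ⟨H.c3 _ _ g.1 (p2 ▸ g.2), g.1⟩)
        n3 (fun g => n3 ⟨g.1, H.c2 _ _ g.1 (p1 ▸ g.2)⟩) (fun g => n3 ⟨H.c3 _ _ g.1 (p1 ▸ g.2), g.1⟩)
        (emb_or f1 f3) (emb_or f5 f7) (emb_or f2 f6) (emb_or f4 f8) (emb_or e1 (p1.trans e4))
        (emb_or e2 (p2.trans e3))
    obtain ⟨rfl, rfl⟩ := key
    obtain rfl : x = x4 := g1.symm.trans g4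
    refine ⟨(u4, v4), ?_, by rw [f7, f8]⟩
    simp only [mem_filter, mem_univ, true_and]
    refine ⟨emb_inj (e1.symm.trans (p1.trans e4)), ?_⟩
    rw [f1, f8, emb_sp, emb_sp] at n1
    rw [f7, f2, emb_sp, emb_sp] at n2
    rw [f1, f2, f7, f8, glob_emb hι g1 n1, glob_emb hι g1 n2] at p2
    exact emb_inj p2

end

end Pool.Agent.Work.MP_03d2dd_co
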